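import Mathlib

/-!
# Laws of random series with independent digits, their Fourier transforms
-/

set_option autoImplicit false

namespace Q50.SP

open MeasureTheory Filter Topology
open scoped ENNReal Real

/-- `exp (2 π i t)` -/
noncomputable def ex (t : ℝ) : ℂ := Complex.exp (2 * π * Complex.I * (t : ℂ))

theorem ex_add (s t : ℝ) : ex (s + t) = ex s * ex t := by
  rw [ex, ex, ex, ← Complex.exp_add]; congr 1; push_cast; ring

@[simp] theorem ex_zero : ex 0 = 1 := by simp [ex]

theorem norm_ex (t : ℝ) : ‖ex t‖ = 1 := by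
  have : (2 * π * Complex.I * (t : ℂ)) = ((2 * π * t : ℝ) : ℂ) * Complex.I := by push_cast; ring
  rw [ex, this, Complex.norm_exp_ofReal_mul_I]

theorem continuous_ex : Continuous ex := by unfold ex; fun_prop

theorem ex_neg (t : ℝ) : ex (-t) = (starRingEnd ℂ) (ex t) := by
  rw [ex, ex, ← Complex.exp_conj]
  congr 1
  have h2 : (starRingEnd ℂ) 2 = 2 := map_ofNat _ _
  rw [map_mul, map_mul, map_mul, Complex.conj_I, Complex.conj_ofReal, Complex.conj_ofReal, h2]
  push_cast
  ring

theorem ex_int (n : ℤ) : ex n = 1 := by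
  rw [ex]
  have : (2 * π * Complex.I * ((n : ℝ) : ℂ)) = n * (2 * π * Complex.I) := by push_cast; ring
  rw [this, Complex.exp_int_mul_two_pi_mul_I]

theorem ex_add_int (t : ℝ) (n : ℤ) : ex (t + n) = ex t := by rw [ex_add, ex_int, mul_one]

/-- Fourier transform of a measure. -/
noncomputable def ft (μ : Measure ℝ) (ξ : ℝ) : ℂ := ∫ x, ex (ξ * x) ∂μ

theorem ft_eq_charFun (μ : Measure ℝ) (ξ : ℝ) : ft μ ξ = charFun μ (2 * π * ξ) := by
  rw [charFun_apply_real, ft]
  congr 1
  funext x
  rw [ex]
  congr 1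
  push_cast
  ring

theorem continuous_ft (μ : Measure ℝ) [IsProbabilityMeasure μ] : Continuous (ft μ) := by
  have : ft μ = fun ξ => charFun μ (2 * π * ξ) := funext (ft_eq_charFun μ)
  rw [this]
  exact continuous_charFun.comp (by fun_prop)

theorem ft_zero (μ : Measure ℝ) [IsProbabilityMeasure μ] : ft μ 0 = 1 := by
  simp [ft]

theorem norm_ft_le (μ : Measure ℝ) [IsProbabilityMeasure μ] (ξ : ℝ) : ‖ft μ ξ‖ ≤ 1 := by
  rw [ft_eq_charFun]
  exact norm_charFun_le_one _

theorem ft_neg (μ : Measure ℝ) (ξ : ℝ) : ft μ (-ξ) = (starRingEnd ℂ) (ft μ ξ) := by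
  rw [ft, ft, ← integral_conj]
  congr 1
  funext x
  rw [← ex_neg]; congr 1; ring

/-- Uniform measure on `Fin N`. -/
noncomputable def coin (N : ℕ) : Measure (Fin N) := (N : ℝ≥0∞)⁻¹ • Measure.count

instance coin_prob (N : ℕ) [NeZero N] : IsProbabilityMeasure (coin N) := by
  refine ⟨?_⟩
  rw [coin, Measure.smul_apply, smul_eq_mul, Measure.count_univ]
  simp only [ENat.card_eq_coe_fintype_card, Fintype.card_fin, ENat.toENNReal_coe]
  exact ENNReal.inv_mul_cancel (by exact_mod_cast NeZero.ne N) (ENNReal.natCast_ne_top _)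

theorem integral_coin (N : ℕ) [NeZero N] (f : Fin N → ℂ) :
    ∫ i, f i ∂(coin N) = (N : ℂ)⁻¹ * ∑ i, f i := by
  rw [coin, integral_smul_measure, integral_count]
  simp

/-- The product of the uniform measures. -/
noncomputable def PP (N : ℕ) [NeZero N] : Measure (ℕ → Fin N) := Measure.infinitePi (fun _ => coin N)

instance PP_prob (N : ℕ) [NeZero N] : IsProbabilityMeasure (PP N) := by
  unfold PP; infer_instance

theorem integral_PP_prod (N : ℕ) [NeZero N] (n : ℕ) (g : ℕ → Fin N → ℂ) :
    ∫ ω, ∏ k ∈ Finset.range n, g k (ω k) ∂(PP N) =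
      ∏ k ∈ Finset.range n, ((N : ℂ)⁻¹ * ∑ i, g k i) := by
  have h1 := integral_restrict_infinitePi (μ := fun _ : ℕ => coin N) (s := Finset.range n)
    (f := fun y => ∏ k : Finset.range n, g k (y k)) (by
      apply Measurable.aestronglyMeasurable
      exact Finset.measurable_prod _ fun k _ =>
        (measurable_of_countable _).comp (measurable_pi_apply k))
  rw [integral_fintype_prod_eq_prod (μ := fun _ : Finset.range n => coin N)
    (fun (k : Finset.range n) x => g k x)] at h1
  rw [Finset.prod_coe_sort (Finset.range n) (fun k => ∫ x, g k x ∂(coin N))] at h1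
  have h2 : ∀ ω : ℕ → Fin N, ∏ k : Finset.range n, g k ((Finset.range n).restrict ω k) =
      ∏ k ∈ Finset.range n, g k (ω k) := by
    intro ω
    exact Finset.prod_coe_sort (Finset.range n) (fun k => g k (ω k))
  simp_rw [h2] at h1
  rw [PP, h1]
  exact Finset.prod_congr rfl fun k _ => integral_coin N _

section series
variable {N : ℕ} [NeZero N] (c : Fin N → ℝ) (R : ℝ)

/-- The random series. -/
noncomputable def XX (ω : ℕ → Fin N) : ℝ := ∑' k, c (ω k) * (R⁻¹) ^ (k + 1)

/-- The law of the random series. -/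
noncomputable def law : Measure ℝ := (PP N).map (XX c R)

/-- The mask. -/
noncomputable def mask (x : ℝ) : ℂ := (N : ℂ)⁻¹ * ∑ i, ex (x * c i)

variable {R} (hR : 1 < R)
include hR

theorem exists_bound : ∃ C : ℝ, 0 ≤ C ∧ ∀ i, |c i| ≤ C := by
  obtain ⟨C, hC⟩ := (Set.finite_range (fun i => |c i|)).bddAbove
  refine ⟨max C 0, le_max_right _ _, fun i => le_max_of_le_left (hC ⟨i, rfl⟩)⟩

theorem norm_term_le {C : ℝ} (hC : ∀ i, |c i| ≤ C) (ω : ℕ → Fin N) (k : ℕ) :
    ‖c (ω k) * (R⁻¹) ^ (k + 1)‖ ≤ C * (R⁻¹) ^ (k + 1) := by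
  have hR0 : 0 < R := by linarith
  rw [norm_mul, Real.norm_eq_abs, Real.norm_eq_abs, abs_of_nonneg (a := (R⁻¹) ^ (k + 1))
    (by positivity)]
  exact mul_le_mul_of_nonneg_right (hC _) (by positivity)

theorem summable_bound (C : ℝ) : Summable (fun k : ℕ => C * (R⁻¹) ^ (k + 1)) := by
  have hR0 : 0 < R := by linarith
  have h1 : Summable (fun k : ℕ => (R⁻¹) ^ k) :=
    summable_geometric_of_lt_one (by positivity) (inv_lt_one_of_one_lt₀ hR)
  exact ((summable_nat_add_iff 1).2 h1).mul_left C

theorem summable_term (ω : ℕ → Fin N) : Summable (fun k => c (ω k) * (R⁻¹) ^ (k + 1)) := by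
  obtain ⟨C, -, hC⟩ := exists_bound c hR
  exact Summable.of_norm_bounded (summable_bound hR C) (norm_term_le c hR hC ω)

theorem continuous_XX : Continuous (XX c R) := by
  obtain ⟨C, -, hC⟩ := exists_bound c hR
  refine continuous_tsum (fun k => ?_) (summable_bound hR C) (fun k ω => norm_term_le c hR hC ω k)
  exact ((continuous_of_discreteTopology (f := c)).comp (continuous_apply k)).mul continuous_const

theorem measurable_XX : Measurable (XX c R) := (continuous_XX c hR).measurable

theorem law_prob : IsProbabilityMeasure (law c R) :=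
  Measure.isProbabilityMeasure_map (measurable_XX c hR).aemeasurable

theorem ft_law (ξ : ℝ) : ft (law c R) ξ = ∫ ω, ex (ξ * XX c R ω) ∂(PP N) := by
  rw [ft, law, integral_map (measurable_XX c hR).aemeasurable]
  exact (continuous_ex.comp (continuous_const.mul continuous_id)).aestronglyMeasurable

theorem tendsto_ft (ξ : ℝ) :
    Tendsto (fun n => ∏ k ∈ Finset.range n, mask c (ξ * (R⁻¹) ^ (k + 1))) atTop
      (𝓝 (ft (law c R) ξ)) := by
  have h1 : ∀ n, ∏ k ∈ Finset.range n, mask c (ξ * (R⁻¹) ^ (k + 1)) =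
      ∫ ω : ℕ → Fin N, ex (ξ * ∑ k ∈ Finset.range n, c (ω k) * (R⁻¹) ^ (k + 1)) ∂(PP N) := by
    intro n
    have h2 := integral_PP_prod N n (fun k i => ex (ξ * (R⁻¹) ^ (k + 1) * c i))
    unfold mask
    rw [← h2]
    congr 1
    funext ω
    clear h2
    induction n with
    | zero => simp
    | succ n ih =>
      rw [Finset.prod_range_succ, ih, Finset.sum_range_succ, mul_add, ex_add]
      congr 2
      ring
  simp_rw [h1]
  rw [ft_law c hR]
  refine tendsto_integral_of_dominated_convergence (fun _ => (1 : ℝ)) ?_ (integrable_const _) ?_ ?_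
  · intro n
    refine Continuous.aestronglyMeasurable ?_
    refine continuous_ex.comp (continuous_const.mul (continuous_finsetSum _ fun k _ => ?_))
    exact ((continuous_of_discreteTopology (f := c)).comp (continuous_apply k)).mul continuous_const
  · intro n
    exact Eventually.of_forall fun ω => (norm_ex _).le
  · refine Eventually.of_forall fun ω => ?_
    exact (continuous_ex.tendsto _).comp
      (((summable_term c hR ω).hasSum.tendsto_sum_nat).const_mul ξ)

theorem ft_step (ξ : ℝ) : ft (law c R) ξ = mask c (ξ * R⁻¹) * ft (law c R) (ξ * R⁻¹) := by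
  have h1 := (tendsto_ft c hR (ξ * R⁻¹)).const_mul (mask c (ξ * R⁻¹))
  have h2 := (tendsto_add_atTop_iff_nat 1).2 (tendsto_ft c hR ξ)
  refine tendsto_nhds_unique h2 (h1.congr fun n => ?_)
  rw [Finset.prod_range_succ', mul_comm]
  congr 1
  · refine Finset.prod_congr rfl fun k _ => ?_
    congr 1
    ring
  · simp

theorem XX_shift (ω : ℕ → Fin N) :
    XX c R ω = R⁻¹ * (XX c R (fun k => ω (k + 1)) + c (ω 0)) := by
  unfold XX
  rw [(summable_term c hR ω).tsum_eq_zero_add, mul_add, ← tsum_mul_left, add_comm]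
  congr 1
  · refine tsum_congr fun k => ?_
    ring
  · simp [mul_comm]

/-- The law is self-similar. -/
theorem law_selfSimilar :
    law c R = (N : ℝ≥0∞)⁻¹ • ∑ i, (law c R).map (fun x => R⁻¹ * (x + c i)) := by
  have := law_prob c hR
  have hm : ∀ i, Measurable (fun x : ℝ => R⁻¹ * (x + c i)) := fun i => by fun_prop
  have hp : ∀ i, IsProbabilityMeasure ((law c R).map (fun x => R⁻¹ * (x + c i))) := fun i =>
    Measure.isProbabilityMeasure_map (hm i).aemeasurable
  have hN0 : (N : ℝ≥0∞) ≠ 0 := by exact_mod_cast NeZero.ne N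
  have hf : IsFiniteMeasure ((N : ℝ≥0∞)⁻¹ • ∑ i, (law c R).map (fun x => R⁻¹ * (x + c i))) := by
    refine ⟨?_⟩
    rw [Measure.smul_apply, smul_eq_mul, Measure.finsetSum_apply]
    simp only [measure_univ, Finset.sum_const, Finset.card_univ, Fintype.card_fin, nsmul_eq_mul,
      mul_one]
    exact ENNReal.mul_lt_top (ENNReal.inv_lt_top.2 (pos_iff_ne_zero.2 hN0))
      (ENNReal.natCast_lt_top _)
  refine Measure.ext_of_charFun ?_
  funext t
  have h1 : ∀ μ : Measure ℝ, charFun μ t = ft μ (t / (2 * π)) := by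
    intro μ
    rw [ft_eq_charFun]
    congr 1
    field_simp
  rw [h1, h1]
  generalize t / (2 * π) = ξ
  have h3 : ft ((N : ℝ≥0∞)⁻¹ • ∑ i, (law c R).map (fun x => R⁻¹ * (x + c i))) ξ =
      ((N : ℝ≥0∞)⁻¹).toReal • ∑ i, ∫ x, ex (ξ * x) ∂((law c R).map (fun x => R⁻¹ * (x + c i))) := by
    rw [ft, integral_smul_measure, integral_finsetSum_measure]
    intro i _
    have := hp i
    refine Integrable.of_bound
      (continuous_ex.comp (continuous_const.mul continuous_id)).aestronglyMeasurable 1 ?_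
    exact Eventually.of_forall fun x => (norm_ex _).le
  rw [ft_step c hR ξ, mask, h3]
  · have h2 : ∀ i, ∫ x, ex (ξ * x) ∂((law c R).map (fun x => R⁻¹ * (x + c i))) =
        ex (ξ * R⁻¹ * c i) * ft (law c R) (ξ * R⁻¹) := by
      intro i
      have hc : Continuous (fun x : ℝ => ex (ξ * x)) :=
        continuous_ex.comp (continuous_const.mul continuous_id)
      rw [integral_map (hm i).aemeasurable hc.aestronglyMeasurable, ft,
        ← integral_const_mul]
      congr 1
      funext x
      rw [← ex_add]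
      congr 1
      ring
    simp_rw [h2]
    rw [← Finset.sum_mul]
    simp only [ENNReal.toReal_inv, ENNReal.toReal_natCast]
    rw [Complex.real_smul]
    push_cast
    ring

end series

end Q50.SP
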