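import Mathlib

/-!
# Self-affine measures, spectral measures, overlap and Hadamard triples: definitions
-/

set_option autoImplicit false

namespace Q50.SelfAffine

open MeasureTheory Matrix
open scoped ENNReal Real

variable {d : ℕ}

/-- The integer matrix `R` is expanding: all its complex eigenvalues have modulus `> 1`. -/
def IsExpanding (R : Matrix (Fin d) (Fin d) ℤ) : Prop :=
  ∀ z : ℂ, (R.map (Int.cast : ℤ → ℂ)).charpoly.IsRoot z → 1 < ‖z‖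

/-- The affine map `τ_b(x) = R⁻¹ (x + b)` of `ℝ^d`. -/
noncomputable def tau (R : Matrix (Fin d) (Fin d) ℤ) (b : Fin d → ℤ) (x : Fin d → ℝ) :
    Fin d → ℝ :=
  (R.map (Int.cast : ℤ → ℝ))⁻¹ *ᵥ (x + fun i => (b i : ℝ))

/-- `μ` is the equal-weight self-affine measure `μ(R, B)`: a Borel probability measure with
`μ = (1/N) ∑_b μ ∘ τ_b⁻¹`, `N = #B`. -/
def IsSelfAffine (R : Matrix (Fin d) (Fin d) ℤ) (B : Finset (Fin d → ℤ))
    (μ : Measure (Fin d → ℝ)) : Prop :=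
  IsProbabilityMeasure μ ∧ μ = ((B.card : ℝ≥0∞)⁻¹) • ∑ b ∈ B, μ.map (tau R b)

/-- `T` is the attractor `T(R, B)`: the nonempty compact set with `T = ⋃_b τ_b(T)`. -/
def IsAttractor (R : Matrix (Fin d) (Fin d) ℤ) (B : Finset (Fin d → ℤ))
    (T : Set (Fin d → ℝ)) : Prop :=
  IsCompact T ∧ T.Nonempty ∧ T = ⋃ b ∈ B, tau R b '' T

/-- `μ` is spectral: for some countable `Λ ⊆ ℝ^d` the exponentials `exp (2 π i ⟨l, x⟩)`, `l ∈ Λ`,
form an orthonormal (Hilbert) basis of `L²(μ)`. -/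
def IsSpectral (μ : Measure (Fin d → ℝ)) : Prop :=
  ∃ Λ : Set (Fin d → ℝ), Λ.Countable ∧ ∃ e : HilbertBasis Λ ℂ (Lp ℂ 2 μ), ∀ l : Λ,
    (e l : (Fin d → ℝ) → ℂ) =ᵐ[μ]
      fun x => Complex.exp (2 * π * Complex.I * ((∑ i, (l : Fin d → ℝ) i * x i : ℝ) : ℂ))

/-- `μ` has no overlap: the pieces `τ_b(T)` of the attractor `T` meet pairwise in `μ`-null sets. -/
def NoOverlap (R : Matrix (Fin d) (Fin d) ℤ) (B : Finset (Fin d → ℤ))
    (μ : Measure (Fin d → ℝ)) : Prop :=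
  ∃ T : Set (Fin d → ℝ), IsAttractor R B T ∧
    ∀ b ∈ B, ∀ b' ∈ B, b ≠ b' → μ (tau R b '' T ∩ tau R b' '' T) = 0

/-- The matrix `N^(-1/2) (exp (2 π i ⟨R⁻¹ b, l⟩))`, `l ∈ L`, `b ∈ B`. -/
noncomputable def tripleMatrix (R : Matrix (Fin d) (Fin d) ℤ) (B L : Finset (Fin d → ℤ)) :
    Matrix L B ℂ :=
  fun l b => ((Real.sqrt (B.card : ℝ))⁻¹ : ℂ) * Complex.exp (2 * π * Complex.I *
    ((∑ i, ((R.map (Int.cast : ℤ → ℝ))⁻¹ *ᵥ (fun j => ((b : Fin d → ℤ) j : ℝ))) i *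
      (((l : Fin d → ℤ) i : ℤ) : ℝ) : ℝ) : ℂ))

/-- `(R, B, L)` is a Hadamard triple: `#L = #B` and the matrix above is unitary. -/
def IsHadamardTriple (R : Matrix (Fin d) (Fin d) ℤ) (B L : Finset (Fin d → ℤ)) : Prop :=
  L.card = B.card ∧ tripleMatrix R B L * (tripleMatrix R B L).conjTranspose = 1 ∧
    (tripleMatrix R B L).conjTranspose * tripleMatrix R B L = 1

end Q50.SelfAffine
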