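import Mathlib
import Pool.Agent.Q50.SP.Coin

/-!
# A criterion for spectral measures on the line
-/

set_option autoImplicit false

namespace Q50.SP

open MeasureTheory Filter Topology
open scoped ENNReal Real ComplexConjugate

section zero
variable {μ : Measure ℝ} [IsProbabilityMeasure μ]

theorem continuous_exmul (ξ : ℝ) : Continuous (fun x : ℝ => ex (ξ * x)) :=
  continuous_ex.comp (continuous_const.mul continuous_id)

theorem real_eq_zero {u : ℝ → ℝ} (hu : Integrable u μ)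
    (h : ∀ ξ, ∫ x, ex (ξ * x) * (u x : ℂ) ∂μ = 0) : u =ᵐ[μ] 0 := by
  have hp : IsFiniteMeasure (μ.withDensity fun x => ENNReal.ofReal (u x)) :=
    isFiniteMeasure_withDensity_ofReal hu.2
  have hn : IsFiniteMeasure (μ.withDensity fun x => ENNReal.ofReal (-u x)) :=
    isFiniteMeasure_withDensity_ofReal hu.neg.2
  have hint : ∀ v : ℝ → ℝ, Integrable v μ → ∀ ξ : ℝ,
      ∫ x, ex (ξ * x) ∂(μ.withDensity fun x => ENNReal.ofReal (v x)) =
        ∫ x, ex (ξ * x) * ((max (v x) 0 : ℝ) : ℂ) ∂μ := by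
    intro v hv ξ
    rw [integral_withDensity_eq_integral_toReal_smul₀ hv.1.aemeasurable.ennreal_ofReal
      (Eventually.of_forall fun x => ENNReal.ofReal_lt_top)]
    congr 1
    funext x
    rw [ENNReal.toReal_ofReal', Complex.real_smul, mul_comm]
  have hi : ∀ v : ℝ → ℝ, Integrable v μ → ∀ ξ : ℝ,
      Integrable (fun x => ex (ξ * x) * ((max (v x) 0 : ℝ) : ℂ)) μ := by
    intro v hv ξ
    have h1 : Integrable (fun x => ((max (v x) 0 : ℝ) : ℂ)) μ := hv.pos_part.ofReal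
    exact h1.bdd_mul (c := 1) (continuous_exmul ξ).aestronglyMeasurable
      (Eventually.of_forall fun x => (norm_ex _).le)
  have heq : (μ.withDensity fun x => ENNReal.ofReal (u x)) =
      (μ.withDensity fun x => ENNReal.ofReal (-u x)) := by
    refine Measure.ext_of_charFun ?_
    funext t
    have h1 : ∀ ν : Measure ℝ, charFun ν t = ft ν (t / (2 * π)) := by
      intro ν
      rw [ft_eq_charFun]
      congr 1
      field_simp
    rw [h1, h1, ft, ft, hint u hu, hint (fun x => -u x) hu.neg, ← sub_eq_zero,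
      ← integral_sub (hi u hu _) (hi (fun x => -u x) hu.neg _), ← h (t / (2 * π))]
    congr 1
    funext x
    rw [← mul_sub, ← Complex.ofReal_sub]
    congr 2
    rcases le_total (u x) 0 with h2 | h2
    · rw [max_eq_right h2, max_eq_left (by linarith)]; ring
    · rw [max_eq_left h2, max_eq_right (by linarith)]; ring
  have h2 := (withDensity_eq_iff hu.1.aemeasurable.ennreal_ofReal
    hu.neg.1.aemeasurable.ennreal_ofReal hu.lintegral_lt_top.ne).1 heq
  filter_upwards [h2] with x hx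
  simp only [Pi.neg_apply, Pi.zero_apply] at hx ⊢
  rcases lt_trichotomy (u x) 0 with h3 | h3 | h3
  · rw [ENNReal.ofReal_of_nonpos h3.le] at hx
    have := (ENNReal.ofReal_pos.2 (show 0 < -u x by linarith)).ne'
    exact absurd hx.symm this
  · exact h3
  · rw [ENNReal.ofReal_of_nonpos (show -u x ≤ 0 by linarith)] at hx
    exact absurd hx (ENNReal.ofReal_pos.2 h3).ne'

theorem complex_eq_zero {f : ℝ → ℂ} (hf : Integrable f μ)
    (h : ∀ ξ, ∫ x, ex (ξ * x) * f x ∂μ = 0) : f =ᵐ[μ] 0 := by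
  have hc : ∀ ξ, ∫ x, ex (ξ * x) * conj (f x) ∂μ = 0 := by
    intro ξ
    have h1 : ∫ x, ex (ξ * x) * conj (f x) ∂μ = conj (∫ x, ex (-ξ * x) * f x ∂μ) := by
      rw [← integral_conj]
      congr 1
      funext x
      rw [map_mul, neg_mul, ex_neg, Complex.conj_conj]
    rw [h1, h, map_zero]
  have hfc : Integrable (fun x => conj (f x)) μ := by
    have := (Complex.conjCLE : ℂ →L[ℝ] ℂ).integrable_comp hf
    exact this
  have hi : ∀ g : ℝ → ℂ, Integrable g μ → ∀ ξ : ℝ, Integrable (fun x => ex (ξ * x) * g x) μ := by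
    intro g hg ξ
    exact hg.bdd_mul (c := 1) (continuous_exmul ξ).aestronglyMeasurable
      (Eventually.of_forall fun x => (norm_ex _).le)
  have hre : (fun x => (f x).re) =ᵐ[μ] 0 := by
    refine real_eq_zero hf.re fun ξ => ?_
    have h1 : ∀ x, ex (ξ * x) * ((f x).re : ℂ) =
        (1 / 2 : ℂ) * (ex (ξ * x) * f x) + (1 / 2 : ℂ) * (ex (ξ * x) * conj (f x)) := by
      intro x
      rw [Complex.re_eq_add_conj]
      ring
    simp_rw [h1]
    rw [integral_add ((hi f hf ξ).const_mul _) ((hi _ hfc ξ).const_mul _), integral_const_mul,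
      integral_const_mul, h, hc]
    simp
  have him : (fun x => (f x).im) =ᵐ[μ] 0 := by
    refine real_eq_zero hf.im fun ξ => ?_
    have h1 : ∀ x, ex (ξ * x) * ((f x).im : ℂ) =
        (1 / (2 * Complex.I) : ℂ) * (ex (ξ * x) * f x) -
          (1 / (2 * Complex.I) : ℂ) * (ex (ξ * x) * conj (f x)) := by
      intro x
      rw [Complex.im_eq_sub_conj]
      ring
    simp_rw [h1]
    rw [integral_sub ((hi f hf ξ).const_mul _) ((hi _ hfc ξ).const_mul _), integral_const_mul,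
      integral_const_mul, h, hc]
    simp
  filter_upwards [hre, him] with x h1 h2
  exact Complex.ext h1 h2

end zero

variable (μ : Measure ℝ) [IsProbabilityMeasure μ]

theorem memLp_ex (ξ : ℝ) : MemLp (fun x => ex (ξ * x)) 2 μ :=
  MemLp.of_bound (continuous_exmul ξ).aestronglyMeasurable 1
    (Eventually.of_forall fun x => (norm_ex _).le)

/-- The exponential in `L²`. -/
noncomputable def E (ξ : ℝ) : Lp ℂ 2 μ := (memLp_ex μ ξ).toLp _

theorem E_ae (ξ : ℝ) : (E μ ξ : ℝ → ℂ) =ᵐ[μ] fun x => ex (ξ * x) := (memLp_ex μ ξ).coeFn_toLp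

theorem inner_E (a : ℝ) (g : Lp ℂ 2 μ) :
    inner ℂ (E μ a) g = ∫ x, ex (-a * x) * g x ∂μ := by
  rw [L2.inner_def]
  refine integral_congr_ae ?_
  filter_upwards [E_ae μ a] with x hx
  rw [hx, RCLike.inner_apply', neg_mul, ex_neg]

theorem inner_E_E (a b : ℝ) : inner ℂ (E μ a) (E μ b) = ft μ (b - a) := by
  rw [inner_E, ft]
  refine integral_congr_ae ?_
  filter_upwards [E_ae μ b] with x hx
  rw [hx, ← ex_add]
  congr 1
  ring

theorem norm_E (a : ℝ) : ‖E μ a‖ = 1 := by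
  have h1 : inner ℂ (E μ a) (E μ a) = (1 : ℂ) := by
    rw [inner_E_E, sub_self, ft_zero]
  rw [inner_self_eq_norm_sq_to_K] at h1
  have h2 : ‖E μ a‖ ^ 2 = 1 := by
    have h3 : ((‖E μ a‖ ^ 2 : ℝ) : ℂ) = ((1 : ℝ) : ℂ) := by
      push_cast
      exact h1
    exact Complex.ofReal_injective h3
  exact (pow_eq_one_iff_of_nonneg (norm_nonneg _) two_ne_zero).1 h2

theorem orthonormal_E {Λ : Set ℝ} (h : ∀ a ∈ Λ, ∀ b ∈ Λ, a ≠ b → ft μ (a - b) = 0) :
    Orthonormal ℂ (fun l : Λ => E μ (l : ℝ)) := by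
  refine ⟨fun l => norm_E μ _, ?_⟩
  intro a b hab
  simp only
  rw [inner_E_E]
  exact h _ b.2 _ a.2 (fun h => hab (Subtype.ext h.symm))

/-- An element orthogonal to an orthonormal family is orthogonal to all elements whose
coefficients exhaust the norm. -/
theorem inner_eq_zero_of_exhaust {ι H : Type*} [NormedAddCommGroup H] [InnerProductSpace ℂ H]
    {v : ι → H} (hv : Orthonormal ℂ v) {x g : H} (hx : ‖x‖ = 1)
    (hg : ∀ i, inner ℂ (v i) g = 0)
    (hS : ∀ ε > 0, ∃ S : Finset ι, 1 - ε < ∑ i ∈ S, ‖inner ℂ (v i) x‖ ^ 2) :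
    inner ℂ g x = 0 := by
  classical
  by_contra hne
  have hg0 : g ≠ 0 := by rintro rfl; simp at hne
  have hgn : (0 : ℝ) < ‖g‖ := norm_pos_iff.2 hg0
  set g' : H := ((‖g‖ : ℂ)⁻¹) • g with hg'
  have hg'n : ‖g'‖ = 1 := by
    rw [hg', norm_smul, norm_inv, Complex.norm_real, norm_norm, inv_mul_cancel₀ hgn.ne']
  have hg'0 : inner ℂ g' x ≠ 0 := by
    rw [hg', inner_smul_left]
    refine mul_ne_zero ?_ hne
    simp [hg0]
  let w : Option ι → H := fun o => o.elim g' v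
  have hw : Orthonormal ℂ w := by
    refine ⟨?_, ?_⟩
    · rintro (_ | i)
      · exact hg'n
      · exact hv.1 i
    · rintro (_ | i) (_ | j) hij
      · exact absurd rfl hij
      · show inner ℂ g' (v j) = 0
        rw [hg', inner_smul_left, ← inner_conj_symm, hg j]; simp
      · show inner ℂ (v i) g' = 0
        rw [hg', inner_smul_right, hg i, mul_zero]
      · exact hv.2 (fun h => hij (congrArg some h))
  obtain ⟨S, hSε⟩ := hS (‖inner ℂ g' x‖ ^ 2) (by positivity)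
  have h1 := hw.sum_inner_products_le (x := x) (s := insert none (S.map Function.Embedding.some))
  rw [Finset.sum_insert (by simp), Finset.sum_map] at h1
  simp only [Function.Embedding.some_apply, w, Option.elim] at h1
  rw [hx] at h1
  linarith

/-- finite subset of a set as a finite set of elements -/
noncomputable def lift {Λ : Set ℝ} (S : Finset ℝ) (hS : ∀ x ∈ S, x ∈ Λ) : Finset Λ :=
  S.attach.map ⟨fun l : {x // x ∈ S} => (⟨l.1, hS l.1 l.2⟩ : Λ), fun _ _ hab =>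
    Subtype.ext (congrArg (fun z : Λ => (z : ℝ)) hab)⟩

theorem sum_lift {Λ : Set ℝ} (S : Finset ℝ) (hS : ∀ x ∈ S, x ∈ Λ) (f : ℝ → ℝ) :
    ∑ l ∈ lift S hS, f (l : ℝ) = ∑ l ∈ S, f l := by
  rw [lift, Finset.sum_map]
  exact Finset.sum_attach S f

theorem eq_zero_of_exhaust {Λ : Set ℝ} (h : ∀ a ∈ Λ, ∀ b ∈ Λ, a ≠ b → ft μ (a - b) = 0)
    (hQ : ∀ ξ : ℝ, ∀ ε > 0, ∃ S : Finset ℝ, ↑S ⊆ Λ ∧ 1 - ε < ∑ l ∈ S, ‖ft μ (ξ - l)‖ ^ 2)
    (g : Lp ℂ 2 μ) (hg : ∀ l ∈ Λ, inner ℂ (E μ l) g = 0) : g = 0 := by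
  have h1 : ∀ ξ, inner ℂ g (E μ ξ) = 0 := by
    intro ξ
    refine inner_eq_zero_of_exhaust (orthonormal_E μ h) (norm_E μ ξ) (fun l => hg l l.2) ?_
    intro ε hε
    obtain ⟨S, hS, hSε⟩ := hQ ξ ε hε
    refine ⟨lift S (fun x hx => hS hx), ?_⟩
    simp only [inner_E_E]
    rw [sum_lift S (fun x hx => hS hx) (fun l => ‖ft μ (ξ - l)‖ ^ 2)]
    exact hSε
  have h2 : (g : ℝ → ℂ) =ᵐ[μ] 0 := by
    refine complex_eq_zero ((Lp.memLp g).integrable (by norm_num)) fun ξ => ?_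
    have h3 := h1 (-ξ)
    rw [← inner_conj_symm, inner_E, neg_neg] at h3
    simpa using h3
  exact (Lp.eq_zero_iff_ae_eq_zero).2 h2

/-- spectral set: the exponentials `exp (2 π i l x)`, `l ∈ Λ`, are orthonormal, and only zero is
orthogonal to all of them. -/
def IsSpec (Λ : Set ℝ) : Prop :=
  (∀ a ∈ Λ, ∀ b ∈ Λ, a ≠ b → ft μ (a - b) = 0) ∧
    ∀ g : Lp ℂ 2 μ, (∀ l ∈ Λ, inner ℂ (E μ l) g = 0) → g = 0

theorem isSpec_of_exhaust {Λ : Set ℝ} (h : ∀ a ∈ Λ, ∀ b ∈ Λ, a ≠ b → ft μ (a - b) = 0)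
    (hQ : ∀ ξ : ℝ, ∀ ε > 0, ∃ S : Finset ℝ, ↑S ⊆ Λ ∧ 1 - ε < ∑ l ∈ S, ‖ft μ (ξ - l)‖ ^ 2) :
    IsSpec μ Λ :=
  ⟨h, fun g hg => eq_zero_of_exhaust μ h hQ g hg⟩

theorem bessel {Λ : Set ℝ} (h : ∀ a ∈ Λ, ∀ b ∈ Λ, a ≠ b → ft μ (a - b) = 0) (ξ : ℝ)
    (S : Finset ℝ) (hS : ↑S ⊆ Λ) : ∑ l ∈ S, ‖ft μ (ξ - l)‖ ^ 2 ≤ 1 := by
  have h1 := (orthonormal_E μ h).sum_inner_products_le (x := E μ ξ)
    (s := lift S (fun x hx => hS hx))
  rw [norm_E] at h1
  simp only [inner_E_E] at h1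
  rw [sum_lift S (fun x hx => hS hx) (fun l => ‖ft μ (ξ - l)‖ ^ 2)] at h1
  simpa using h1

/-- the criterion for non-spectral sets -/
theorem not_isSpec_of_frequency {Λ : Set ℝ} (y : ℝ) (hy : ∀ l ∈ Λ, ft μ (y - l) = 0) :
    ¬ IsSpec μ Λ := by
  intro h
  have h1 := h.2 (E μ y) (fun l hl => by rw [inner_E_E]; exact hy l hl)
  have h2 := norm_E μ y
  rw [h1, norm_zero] at h2
  exact zero_ne_one h2

theorem IsSpec.exists_basis {Λ : Set ℝ} (h : IsSpec μ Λ) :
    ∃ b : HilbertBasis Λ ℂ (Lp ℂ 2 μ), ∀ l : Λ, b l = E μ (l : ℝ) := by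
  have ho := orthonormal_E μ h.1
  have hbot : (Submodule.span ℂ (Set.range (fun l : Λ => E μ (l : ℝ))))ᗮ = ⊥ := by
    rw [Submodule.eq_bot_iff]
    intro g hg
    refine h.2 g fun l hl => ?_
    exact (Submodule.mem_orthogonal _ _).1 hg _ (Submodule.subset_span ⟨⟨l, hl⟩, rfl⟩)
  refine ⟨HilbertBasis.mkOfOrthogonalEqBot ho hbot, fun l => ?_⟩
  simp

end Q50.SP
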