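import Mathlib
import Pool.Agent.Q50.SP.Spec

/-!
# Spectra built level by level
-/

set_option autoImplicit false

namespace Q50.SP

open MeasureTheory Filter Topology
open scoped ENNReal Real ComplexConjugate

/-- The abstract exhaustion argument. -/
theorem exhaust {F : ℝ → ℂ} {Λ : ℕ → Finset ℝ} (mono : Monotone Λ) {Fn Gn : ℕ → ℝ → ℂ}
    (fac : ∀ n ξ, F ξ = Fn n ξ * Gn n ξ)
    (sum1 : ∀ n ξ, ∑ l ∈ Λ n, ‖Fn n (ξ - l)‖ ^ 2 = 1)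
    (bes : ∀ n ξ, ∑ l ∈ Λ n, ‖F (ξ - l)‖ ^ 2 ≤ 1)
    (lim : ∀ ξ, Tendsto (fun n => Fn n ξ) atTop (𝓝 (F ξ)))
    (low : ∀ ξ, ∃ c > 0, ∃ᶠ n in atTop, ∀ l ∈ Λ n, c ≤ ‖Gn n (ξ - l)‖) (ξ : ℝ) {ε : ℝ}
    (hε : 0 < ε) : ∃ n, 1 - ε < ∑ l ∈ Λ n, ‖F (ξ - l)‖ ^ 2 := by
  classical
  obtain ⟨c, hc, hfr⟩ := low ξ
  set a : ℕ → ℝ := fun n => ∑ l ∈ Λ n, ‖F (ξ - l)‖ ^ 2 with ha
  have hmono : Monotone a := fun m n hmn =>
    Finset.sum_le_sum_of_subset_of_nonneg (mono hmn) fun _ _ _ => by positivity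
  have hbdd : BddAbove (Set.range a) := ⟨1, by rintro _ ⟨n, rfl⟩; exact bes n ξ⟩
  have hlim := tendsto_atTop_ciSup hmono hbdd
  set A := ⨆ n, a n with hA
  have hle : ∀ n, a n ≤ A := fun n => le_ciSup hbdd n
  have hδ : 0 < c ^ 2 * (ε / 2) := by positivity
  obtain ⟨m, hm⟩ := (hlim.eventually (lt_mem_nhds (show A - c ^ 2 * (ε / 2) < A by linarith))).exists
  refine ⟨m, ?_⟩
  have hlim2 : Tendsto (fun n => ∑ l ∈ Λ m, ‖Fn n (ξ - l)‖ ^ 2) atTop (𝓝 (a m)) :=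
    tendsto_finsetSum _ fun l _ => ((lim (ξ - l)).norm).pow 2
  have hev := (hlim2.eventually (gt_mem_nhds (show a m < a m + ε / 2 by linarith))).and
    (eventually_ge_atTop m)
  obtain ⟨n, hn1, hn2, hn3⟩ := (hfr.and_eventually hev).exists
  have h1 : ∑ l ∈ Λ n, ‖Fn n (ξ - l)‖ ^ 2 =
      ∑ l ∈ Λ n \ Λ m, ‖Fn n (ξ - l)‖ ^ 2 + ∑ l ∈ Λ m, ‖Fn n (ξ - l)‖ ^ 2 :=
    (Finset.sum_sdiff (mono hn3)).symm
  have h2 : a n = ∑ l ∈ Λ n \ Λ m, ‖F (ξ - l)‖ ^ 2 + a m :=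
    (Finset.sum_sdiff (mono hn3)).symm
  have h3 : c ^ 2 * ∑ l ∈ Λ n \ Λ m, ‖Fn n (ξ - l)‖ ^ 2 ≤ ∑ l ∈ Λ n \ Λ m, ‖F (ξ - l)‖ ^ 2 := by
    rw [Finset.mul_sum]
    refine Finset.sum_le_sum fun l hl => ?_
    have h4 := hn1 l (Finset.mem_sdiff.1 hl).1
    rw [fac n (ξ - l), norm_mul, mul_pow, mul_comm]
    exact mul_le_mul_of_nonneg_left (pow_le_pow_left₀ hc.le h4 2) (by positivity)
  have h5 := sum1 n ξ
  have h6 := hle n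
  have h7 : c ^ 2 * ∑ l ∈ Λ n \ Λ m, ‖Fn n (ξ - l)‖ ^ 2 < c ^ 2 * (ε / 2) := by linarith
  have h8 : ∑ l ∈ Λ n \ Λ m, ‖Fn n (ξ - l)‖ ^ 2 < ε / 2 :=
    lt_of_mul_lt_mul_left h7 (by positivity)
  linarith

theorem isSpec_tower (μ : Measure ℝ) [IsProbabilityMeasure μ] {Λ : ℕ → Finset ℝ}
    (mono : Monotone Λ) {Fn Gn : ℕ → ℝ → ℂ}
    (fac : ∀ n ξ, ft μ ξ = Fn n ξ * Gn n ξ) (one : ∀ n, Fn n 0 = 1)
    (sum1 : ∀ n ξ, ∑ l ∈ Λ n, ‖Fn n (ξ - l)‖ ^ 2 = 1)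
    (lim : ∀ ξ, Tendsto (fun n => Fn n ξ) atTop (𝓝 (ft μ ξ)))
    (low : ∀ ξ, ∃ c > 0, ∃ᶠ n in atTop, ∀ l ∈ Λ n, c ≤ ‖Gn n (ξ - l)‖) :
    IsSpec μ (⋃ n, (Λ n : Set ℝ)) := by
  classical
  have horth : ∀ n, ∀ a ∈ Λ n, ∀ b ∈ Λ n, a ≠ b → ft μ (a - b) = 0 := by
    intro n a ha b hb hab
    have h1 := sum1 n a
    rw [← Finset.add_sum_erase _ _ ha, sub_self, one] at h1
    have h2 : ∑ l ∈ (Λ n).erase a, ‖Fn n (a - l)‖ ^ 2 = 0 := by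
      simpa using h1
    rw [Finset.sum_eq_zero_iff_of_nonneg (fun _ _ => by positivity)] at h2
    have h3 := h2 b (Finset.mem_erase.2 ⟨hab.symm, hb⟩)
    have h4 : Fn n (a - b) = 0 := by simpa using h3
    rw [fac n, h4, zero_mul]
  have horth' : ∀ a ∈ ⋃ n, (Λ n : Set ℝ), ∀ b ∈ ⋃ n, (Λ n : Set ℝ), a ≠ b →
      ft μ (a - b) = 0 := by
    intro a ha b hb hab
    obtain ⟨m, hm⟩ := Set.mem_iUnion.1 ha
    obtain ⟨n, hn⟩ := Set.mem_iUnion.1 hb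
    exact horth (max m n) a (mono (le_max_left _ _) hm) b (mono (le_max_right _ _) hn) hab
  refine isSpec_of_exhaust μ horth' fun ξ ε hε => ?_
  obtain ⟨n, hn⟩ := exhaust mono fac sum1
    (fun n ξ => bessel μ horth' ξ (Λ n) (Set.subset_iUnion (fun n => (Λ n : Set ℝ)) n))
    lim low ξ hε
  exact ⟨Λ n, Set.subset_iUnion (fun n => (Λ n : Set ℝ)) n, hn⟩

/-- The mask of a fair coin. -/
noncomputable def AA (x : ℝ) : ℂ := (1 + ex x) / 2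

theorem norm_AA_sq (x : ℝ) : ‖AA x‖ ^ 2 = Real.cos (π * x) ^ 2 := by
  have h1 : AA x = ex (x / 2) * (Real.cos (π * x) : ℂ) := by
    rw [AA, Complex.ofReal_cos, Complex.cos]
    have h2 : ex x = ex (x / 2) * ex (x / 2) := by rw [← ex_add]; congr 1; ring
    have h3 : Complex.exp (((π * x : ℝ) : ℂ) * Complex.I) = ex (x / 2) := by
      rw [ex]; congr 1; push_cast; ring
    have h4 : Complex.exp (-((π * x : ℝ) : ℂ) * Complex.I) = ex (-(x / 2)) := by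
      rw [ex]; congr 1; push_cast; ring
    have h5 : ex (x / 2) * ex (-(x / 2)) = 1 := by rw [← ex_add]; simp
    rw [h3, h4, h2, mul_div_assoc', mul_add, h5]
    ring
  rw [h1, norm_mul, norm_ex, one_mul, Complex.norm_real, Real.norm_eq_abs, sq_abs]

theorem AA_zero : AA 0 = 1 := by simp [AA]

theorem AA_add_int (x : ℝ) (n : ℤ) : AA (x + n) = AA x := by
  rw [AA, AA, ex_add_int]

theorem AA_half (x : ℝ) : ‖AA x‖ ^ 2 + ‖AA (x + 1 / 2)‖ ^ 2 = 1 := by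
  rw [norm_AA_sq, norm_AA_sq, mul_add]
  have : π * (1 / 2) = π / 2 := by ring
  rw [this, Real.cos_add_pi_div_two]
  have := Real.sin_sq_add_cos_sq (π * x)
  linarith [neg_sq (Real.sin (π * x))]

theorem AA_ne_zero {x : ℝ} (hx : |x| < 1 / 2) : AA x ≠ 0 := by
  intro h
  have h1 := norm_AA_sq x
  rw [h, norm_zero] at h1
  obtain ⟨h2, h3⟩ := abs_lt.1 hx
  have h4 : 0 < Real.cos (π * x) := Real.cos_pos_of_mem_Ioo
    ⟨by nlinarith [Real.pi_pos], by nlinarith [Real.pi_pos]⟩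
  have h5 : 0 < Real.cos (π * x) ^ 2 := by positivity
  rw [← h1] at h5
  simp at h5

theorem continuous_AA : Continuous AA := by
  unfold AA
  exact (continuous_const.add continuous_ex).div_const _

end Q50.SP
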