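import Mathlib
import Pool.Agent.Q50.SP.Tower

/-!
# The self-similar measure with ratio 1/4 and digits 0, 2, and spectra made of integers
-/

set_option autoImplicit false

namespace Q50.SP

open MeasureTheory Filter Topology
open scoped ENNReal Real ComplexConjugate

/-- digits -/
def d4 : Fin 2 → ℝ := ![0, 2]

/-- the measure -/
noncomputable def m4 : Measure ℝ := law d4 4

instance m4_prob : IsProbabilityMeasure m4 := law_prob d4 (by norm_num)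

theorem mask_d4 (x : ℝ) : mask d4 x = AA (2 * x) := by
  rw [mask, AA]
  simp only [Fin.sum_univ_two, d4, Matrix.cons_val_zero, Matrix.cons_val_one, mul_zero, ex_zero]
  rw [mul_comm x 2]
  push_cast
  ring

theorem ft4_step (ξ : ℝ) : ft m4 ξ = AA (ξ / 2) * ft m4 (ξ / 4) := by
  rw [m4, ft_step d4 (by norm_num) ξ, mask_d4]
  have h1 : ξ * (4 : ℝ)⁻¹ = ξ / 4 := by ring
  have h2 : 2 * (ξ / 4) = ξ / 2 := by ring
  rw [h1, h2]

/-- products of masks -/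
noncomputable def P4 (n : ℕ) (ξ : ℝ) : ℂ := ∏ k ∈ Finset.range n, AA (ξ / 4 ^ k / 2)

theorem P4_succ (n : ℕ) (ξ : ℝ) : P4 (n + 1) ξ = AA (ξ / 2) * P4 n (ξ / 4) := by
  rw [P4, P4, Finset.prod_range_succ', mul_comm]
  congr 1
  · simp
  · refine Finset.prod_congr rfl fun k _ => ?_
    congr 2
    rw [div_div, pow_succ']

theorem ft4_fac (n : ℕ) (ξ : ℝ) : ft m4 ξ = P4 n ξ * ft m4 (ξ / 4 ^ n) := by
  induction n generalizing ξ with
  | zero => simp [P4]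
  | succ n ih =>
    rw [ft4_step, ih (ξ / 4), P4_succ, mul_assoc]
    congr 3
    rw [div_div, pow_succ']

theorem tendsto_div_pow4 (ξ : ℝ) : Tendsto (fun n : ℕ => ξ / 4 ^ n) atTop (𝓝 0) := by
  have h1 : Tendsto (fun n : ℕ => ξ * ((4 : ℝ)⁻¹) ^ n) atTop (𝓝 (ξ * 0)) :=
    (tendsto_pow_atTop_nhds_zero_of_lt_one (by norm_num) (by norm_num)).const_mul ξ
  rw [mul_zero] at h1
  refine h1.congr fun n => ?_
  rw [inv_pow, div_eq_mul_inv]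

theorem ft4_tendsto_one (ξ : ℝ) : Tendsto (fun n : ℕ => ft m4 (ξ / 4 ^ n)) atTop (𝓝 1) := by
  have := ((continuous_ft m4).tendsto 0).comp (tendsto_div_pow4 ξ)
  rwa [ft_zero] at this

theorem P4_tendsto (ξ : ℝ) : Tendsto (fun n => P4 n ξ) atTop (𝓝 (ft m4 ξ)) := by
  have h1 := ft4_tendsto_one ξ
  have h2 : Tendsto (fun n : ℕ => ft m4 ξ / ft m4 (ξ / 4 ^ n)) atTop (𝓝 (ft m4 ξ / 1)) :=
    tendsto_const_nhds.div h1 one_ne_zero
  rw [div_one] at h2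
  refine h2.congr' ?_
  filter_upwards [h1.eventually_ne one_ne_zero] with n hn
  rw [ft4_fac n, mul_div_assoc, div_self hn, mul_one]

theorem AA_eq_zero {x : ℝ} (h : AA x = 0) : ∃ m : ℤ, 2 * x = 2 * m + 1 := by
  have h1 := norm_AA_sq x
  rw [h, norm_zero] at h1
  have h2 : Real.cos (π * x) = 0 := by
    have : Real.cos (π * x) ^ 2 = 0 := by rw [← h1]; norm_num
    simpa using this
  obtain ⟨m, hm⟩ := Real.cos_eq_zero_iff.1 h2
  refine ⟨m, ?_⟩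
  have := Real.pi_pos.ne'
  field_simp at hm
  linarith

theorem AA_odd (m : ℤ) : AA ((2 * m + 1 : ℝ) / 2) = 0 := by
  have h1 := norm_AA_sq ((2 * m + 1 : ℝ) / 2)
  have h2 : Real.cos (π * ((2 * m + 1 : ℝ) / 2)) = 0 := by
    rw [Real.cos_eq_zero_iff]
    exact ⟨m, by ring⟩
  rw [h2] at h1
  have h3 : ‖AA ((2 * m + 1 : ℝ) / 2)‖ ^ 2 = 0 := by rw [h1]; norm_num
  simpa using h3

/-- zeros of the Fourier transform -/
theorem ft4_zero_of (k : ℕ) (m : ℤ) : ft m4 (4 ^ k * (2 * m + 1)) = 0 := by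
  induction k with
  | zero =>
    rw [pow_zero, one_mul, ft4_step, AA_odd, zero_mul]
  | succ k ih =>
    rw [ft4_step]
    have : (4 : ℝ) ^ (k + 1) * (2 * m + 1) / 4 = 4 ^ k * (2 * m + 1) := by
      rw [pow_succ]; ring
    rw [this, ih, mul_zero]

theorem exists_of_ft4_zero {ξ : ℝ} (h : ft m4 ξ = 0) : ∃ (k : ℕ) (m : ℤ), ξ = 4 ^ k * (2 * m + 1) := by
  obtain ⟨n, hn⟩ := ((ft4_tendsto_one ξ).eventually_ne one_ne_zero).exists
  rw [ft4_fac n, mul_eq_zero] at h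
  have h1 := h.resolve_right hn
  rw [P4, Finset.prod_eq_zero_iff] at h1
  obtain ⟨k, -, hk⟩ := h1
  obtain ⟨m, hm⟩ := AA_eq_zero hk
  refine ⟨k, m, ?_⟩
  have h4 : (4 : ℝ) ^ k ≠ 0 := by positivity
  field_simp at hm
  linarith

theorem ft4_ne_zero {x : ℝ} (hx : |x| < 1) : ft m4 x ≠ 0 := by
  intro h
  obtain ⟨k, m, rfl⟩ := exists_of_ft4_zero h
  rw [abs_mul, abs_of_pos (show (0 : ℝ) < 4 ^ k by positivity)] at hx
  have h1 : (1 : ℝ) ≤ 4 ^ k := one_le_pow₀ (by norm_num)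
  have h2 : (1 : ℝ) ≤ |(2 * m + 1 : ℝ)| := by
    have : (1 : ℤ) ≤ |2 * m + 1| := Int.one_le_abs (by omega)
    have h3 : ((1 : ℤ) : ℝ) ≤ ((|2 * m + 1| : ℤ) : ℝ) := by exact_mod_cast this
    push_cast at h3
    simpa using h3
  nlinarith

/-- the Parseval sum of a set of integers -/
noncomputable def Q (Λ : Set ℤ) (ξ : ℝ) : ℝ≥0∞ :=
  ∑' l : Λ, ENNReal.ofReal (‖ft m4 (ξ + ((l : ℤ) : ℝ))‖ ^ 2)

/-- The set `4 A ∪ (a + 4 B)`. -/
def glue (a : ℤ) (A B : Set ℤ) : Set ℤ := (fun m => 4 * m) '' A ∪ (fun m => a + 4 * m) '' B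

theorem AA_shift_odd (x : ℝ) {a : ℤ} (ha : Odd a) (m : ℤ) :
    AA ((x + ((a + 4 * m : ℤ) : ℝ)) / 2) = AA (x / 2 + 1 / 2) := by
  obtain ⟨j, rfl⟩ := ha
  have : (x + ((2 * j + 1 + 4 * m : ℤ) : ℝ)) / 2 = x / 2 + 1 / 2 + ((j + 2 * m : ℤ) : ℝ) := by
    push_cast; ring
  rw [this, AA_add_int]

theorem AA_shift_even (x : ℝ) (m : ℤ) :
    AA ((x + ((4 * m : ℤ) : ℝ)) / 2) = AA (x / 2) := by
  have : (x + ((4 * m : ℤ) : ℝ)) / 2 = x / 2 + ((2 * m : ℤ) : ℝ) := by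
    push_cast; ring
  rw [this, AA_add_int]

theorem Q_glue {a : ℤ} (ha : Odd a) (A B : Set ℤ) (ξ : ℝ) :
    Q (glue a A B) ξ = ENNReal.ofReal (‖AA (ξ / 2)‖ ^ 2) * Q A (ξ / 4) +
      ENNReal.ofReal (‖AA (ξ / 2 + 1 / 2)‖ ^ 2) * Q B ((ξ + a) / 4) := by
  have hdisj : Disjoint ((fun m : ℤ => 4 * m) '' A) ((fun m : ℤ => a + 4 * m) '' B) := by
    rw [Set.disjoint_left]
    rintro _ ⟨m, -, rfl⟩ ⟨k, -, hk⟩
    obtain ⟨j, rfl⟩ := ha
    simp only at hk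
    omega
  have hA : Set.InjOn (fun m : ℤ => 4 * m) A := fun x _ y _ h => by simpa using h
  have hB : Set.InjOn (fun m : ℤ => a + 4 * m) B := fun x _ y _ h => by simpa using h
  have h1 : Q (glue a A B) ξ =
      ∑' l : (fun m : ℤ => 4 * m) '' A, ENNReal.ofReal (‖ft m4 (ξ + ((l : ℤ) : ℝ))‖ ^ 2) +
      ∑' l : (fun m : ℤ => a + 4 * m) '' B, ENNReal.ofReal (‖ft m4 (ξ + ((l : ℤ) : ℝ))‖ ^ 2) :=
    ENNReal.summable.tsum_union_disjoint (f := fun l : ℤ =>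
      ENNReal.ofReal (‖ft m4 (ξ + (l : ℝ))‖ ^ 2)) hdisj ENNReal.summable
  rw [h1, tsum_image (fun l : ℤ => ENNReal.ofReal (‖ft m4 (ξ + (l : ℝ))‖ ^ 2)) hA,
    tsum_image (fun l : ℤ => ENNReal.ofReal (‖ft m4 (ξ + (l : ℝ))‖ ^ 2)) hB, Q, Q,
    ← ENNReal.tsum_mul_left, ← ENNReal.tsum_mul_left]
  congr 1
  · refine tsum_congr fun l => ?_
    have e : (ξ + ((4 * (l : ℤ) : ℤ) : ℝ)) / 4 = ξ / 4 + ((l : ℤ) : ℝ) := by push_cast; ring
    rw [← ENNReal.ofReal_mul (by positivity), ft4_step, norm_mul, mul_pow, AA_shift_even, e]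
  · refine tsum_congr fun l => ?_
    have e : (ξ + ((a + 4 * (l : ℤ) : ℤ) : ℝ)) / 4 = (ξ + a) / 4 + ((l : ℤ) : ℝ) := by
      push_cast; ring
    rw [← ENNReal.ofReal_mul (by positivity), ft4_step, norm_mul, mul_pow, AA_shift_odd ξ ha, e]

/-- a Parseval set of integers -/
def Good (Λ : Set ℤ) : Prop := ∀ ξ, Q Λ ξ = 1

theorem Good.orth {Λ : Set ℤ} (h : Good Λ) {a b : ℤ} (ha : a ∈ Λ) (hb : b ∈ Λ) (hab : a ≠ b) :
    ft m4 ((b : ℝ) - a) = 0 := by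
  have h1 := h (-(a : ℝ))
  rw [Q, ENNReal.tsum_eq_add_tsum_ite (⟨a, ha⟩ : Λ)] at h1
  simp only [neg_add_cancel, ft_zero, norm_one, one_pow, ENNReal.ofReal_one] at h1
  have h2 := (ENNReal.add_right_inj ENNReal.one_ne_top).1 (h1.trans (add_zero 1).symm)
  rw [ENNReal.tsum_eq_zero] at h2
  have h3 := h2 ⟨b, hb⟩
  rw [if_neg (fun h => hab (congrArg Subtype.val h).symm), ENNReal.ofReal_eq_zero] at h3
  have h4 : ‖ft m4 (-(a : ℝ) + (b : ℝ))‖ ^ 2 = 0 := le_antisymm h3 (by positivity)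
  have h5 : -(a : ℝ) + (b : ℝ) = (b : ℝ) - a := by ring
  rw [← h5]
  simpa using h4

theorem norm_ft4_neg (ξ : ℝ) : ‖ft m4 (-ξ)‖ = ‖ft m4 ξ‖ := by
  rw [ft_neg, RCLike.norm_conj]

theorem Good.exhaust {Λ : Set ℤ} (h : Good Λ) (ξ : ℝ) {ε : ℝ} (hε : 0 < ε) :
    ∃ S : Finset ℤ, ↑S ⊆ Λ ∧ 1 - ε < ∑ l ∈ S, ‖ft m4 (ξ + (l : ℝ))‖ ^ 2 := by
  classical
  have h1 := h ξ
  rw [Q, ENNReal.tsum_eq_iSup_sum] at h1
  have h2 : ENNReal.ofReal (1 - ε) < ⨆ s : Finset Λ,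
      ∑ l ∈ s, ENNReal.ofReal (‖ft m4 (ξ + ((l : ℤ) : ℝ))‖ ^ 2) := by
    rw [h1, ENNReal.ofReal_lt_one]
    linarith
  obtain ⟨s, hs⟩ := lt_iSup_iff.1 h2
  refine ⟨s.map (Function.Embedding.subtype _), ?_, ?_⟩
  · intro x hx
    simp only [Finset.coe_map, Set.mem_image] at hx
    obtain ⟨y, -, rfl⟩ := hx
    exact y.2
  · rw [Finset.sum_map]
    simp only [Function.Embedding.coe_subtype]
    rw [← ENNReal.ofReal_sum_of_nonneg (fun _ _ => by positivity)] at hs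
    exact (ENNReal.ofReal_lt_ofReal_iff'.1 hs).1

end Q50.SP
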