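import Mathlib
import Pool.Agent.Q50.SP.Four

/-!
# Towers and their glueing
-/

set_option autoImplicit false

namespace Q50.SP

open MeasureTheory Filter Topology
open scoped ENNReal Real ComplexConjugate

/-- The sums `∑_{k < n} ε_k 4^k a_k`, `ε_k ∈ {0, 1}`. -/
def tw : ℕ → (ℕ → ℤ) → Finset ℤ
  | 0, _ => {0}
  | n + 1, a => (tw n (fun k => a (k + 1))).image (fun m => 4 * m) ∪
      (tw n (fun k => a (k + 1))).image (fun m => a 0 + 4 * m)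

theorem mem_tw_succ {n : ℕ} {a : ℕ → ℤ} {l : ℤ} : l ∈ tw (n + 1) a ↔
    (∃ m ∈ tw n (fun k => a (k + 1)), 4 * m = l) ∨
      (∃ m ∈ tw n (fun k => a (k + 1)), a 0 + 4 * m = l) := by
  simp [tw]

theorem sum_tw_succ (n : ℕ) (a : ℕ → ℤ) (ha : Odd (a 0)) (f : ℤ → ℝ) :
    ∑ l ∈ tw (n + 1) a, f l = ∑ m ∈ tw n (fun k => a (k + 1)), f (4 * m) +
      ∑ m ∈ tw n (fun k => a (k + 1)), f (a 0 + 4 * m) := by
  rw [tw, Finset.sum_union, Finset.sum_image, Finset.sum_image]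
  · intro x _ y _ h; simpa using h
  · intro x _ y _ h; simpa using h
  · rw [Finset.disjoint_left]
    intro l h1 h2
    obtain ⟨m, -, rfl⟩ := Finset.mem_image.1 h1
    obtain ⟨k, -, hk⟩ := Finset.mem_image.1 h2
    obtain ⟨j, hj⟩ := ha
    omega

theorem P4_sum (n : ℕ) (a : ℕ → ℤ) (ha : ∀ k, Odd (a k)) (ξ : ℝ) :
    ∑ l ∈ tw n a, ‖P4 n (ξ + (l : ℝ))‖ ^ 2 = 1 := by
  induction n generalizing a ξ with
  | zero => simp [tw, P4]
  | succ n ih =>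
    rw [sum_tw_succ n a (ha 0) (fun l => ‖P4 (n + 1) (ξ + (l : ℝ))‖ ^ 2)]
    have h1 : ∀ m ∈ tw n (fun k => a (k + 1)), ‖P4 (n + 1) (ξ + ((4 * m : ℤ) : ℝ))‖ ^ 2 =
        ‖AA (ξ / 2)‖ ^ 2 * ‖P4 n (ξ / 4 + (m : ℝ))‖ ^ 2 := by
      intro m _
      have e : (ξ + ((4 * m : ℤ) : ℝ)) / 4 = ξ / 4 + (m : ℝ) := by push_cast; ring
      rw [P4_succ, norm_mul, mul_pow, AA_shift_even, e]
    have h2 : ∀ m ∈ tw n (fun k => a (k + 1)), ‖P4 (n + 1) (ξ + ((a 0 + 4 * m : ℤ) : ℝ))‖ ^ 2 =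
        ‖AA (ξ / 2 + 1 / 2)‖ ^ 2 * ‖P4 n ((ξ + a 0) / 4 + (m : ℝ))‖ ^ 2 := by
      intro m _
      have e : (ξ + ((a 0 + 4 * m : ℤ) : ℝ)) / 4 = (ξ + a 0) / 4 + (m : ℝ) := by push_cast; ring
      rw [P4_succ, norm_mul, mul_pow, AA_shift_odd ξ (ha 0), e]
    rw [Finset.sum_congr rfl h1, Finset.sum_congr rfl h2, ← Finset.mul_sum, ← Finset.mul_sum,
      ih _ (fun k => ha (k + 1)), ih _ (fun k => ha (k + 1)), mul_one, mul_one]
    exact AA_half (ξ / 2)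

theorem tw_le_succ (n : ℕ) (a : ℕ → ℤ) : tw n a ⊆ tw (n + 1) a := by
  induction n generalizing a with
  | zero =>
    intro l hl
    simp only [tw, Finset.mem_singleton] at hl
    subst hl
    rw [mem_tw_succ]
    exact Or.inl ⟨0, by simp [tw], by ring⟩
  | succ n ih =>
    intro l hl
    rw [mem_tw_succ] at hl ⊢
    rcases hl with ⟨m, hm, rfl⟩ | ⟨m, hm, rfl⟩
    · exact Or.inl ⟨m, ih _ hm, rfl⟩
    · exact Or.inr ⟨m, ih _ hm, rfl⟩

theorem tw_mono (a : ℕ → ℤ) : Monotone (fun n => tw n a) :=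
  monotone_nat_of_le_succ fun n => tw_le_succ n a

theorem zero_mem_tw (n : ℕ) (a : ℕ → ℤ) : (0 : ℤ) ∈ tw n a :=
  tw_mono a (Nat.zero_le n) (by simp [tw])

theorem tw_bound (n : ℕ) (a : ℕ → ℤ) (hodd : ∀ k, Odd (a k)) (hb : ∀ k, |a k| ≤ 3)
    (hp : ¬ (a (n + 1) = a n ∧ |a n| = 3)) (l : ℤ) (hl : l ∈ tw (n + 2) a) :
    8 * (|l| + 1) ≤ 7 * 4 ^ (n + 2) := by
  induction n generalizing a l with
  | zero =>
    have hb0 := abs_le.1 (hb 0)
    have hb1 := abs_le.1 (hb 1)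
    obtain ⟨j0, hj0⟩ := hodd 0
    obtain ⟨j1, hj1⟩ := hodd 1
    have hl' : l = 0 ∨ l = a 0 ∨ l = 4 * a 1 ∨ l = a 0 + 4 * a 1 := by
      rw [mem_tw_succ] at hl
      rcases hl with ⟨m, hm, rfl⟩ | ⟨m, hm, rfl⟩ <;> rw [mem_tw_succ] at hm <;>
        rcases hm with ⟨k, hk, rfl⟩ | ⟨k, hk, rfl⟩ <;>
        simp only [tw, Finset.mem_singleton] at hk <;> subst hk <;> simp
    have h1 : ¬ (a 1 = a 0 ∧ (a 0 = 3 ∨ a 0 = -3)) := by
      rintro ⟨h1, h2⟩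
      exact hp ⟨h1, by rcases h2 with h2 | h2 <;> rw [h2] <;> norm_num⟩
    have h2 : |l| ≤ 13 := by
      rw [abs_le]
      rcases hl' with rfl | rfl | rfl | rfl <;> constructor <;> omega
    norm_num
    omega
  | succ n ih =>
    rw [mem_tw_succ] at hl
    have h0 := hb 0
    have key : ∃ m ∈ tw (n + 2) (fun k => a (k + 1)), |l| ≤ 3 + 4 * |m| := by
      rcases hl with ⟨m, hm, rfl⟩ | ⟨m, hm, rfl⟩
      · refine ⟨m, hm, ?_⟩
        rw [abs_mul]; norm_num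
      · refine ⟨m, hm, ?_⟩
        calc |a 0 + 4 * m| ≤ |a 0| + |4 * m| := abs_add_le _ _
          _ ≤ 3 + 4 * |m| := by rw [abs_mul]; norm_num; omega
    obtain ⟨m, hm, hml⟩ := key
    have h1 := ih (fun k => a (k + 1)) (fun k => hodd _) (fun k => hb _) hp m hm
    have h2 : (4 : ℤ) ^ (n + 1 + 2) = 4 * 4 ^ (n + 2) := by ring
    rw [h2]
    omega

/-- Parseval sums of increasing unions. -/
theorem Q_iUnion_le {A : ℕ → Set ℤ} (hA : Monotone A) (ξ : ℝ) (h : ∀ n, Q (A n) ξ ≤ 1) :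
    Q (⋃ n, A n) ξ ≤ 1 := by
  classical
  rw [Q, ENNReal.tsum_eq_iSup_sum]
  refine iSup_le fun s => ?_
  have h1 : ∃ n, ∀ x ∈ s, ((x : ↑(⋃ n, A n)) : ℤ) ∈ A n := by
    induction s using Finset.induction_on with
    | empty => exact ⟨0, by simp⟩
    | insert x s _ ih =>
      obtain ⟨n, hn⟩ := ih
      obtain ⟨m, hm⟩ := Set.mem_iUnion.1 x.2
      refine ⟨max m n, fun y hy => ?_⟩
      rcases Finset.mem_insert.1 hy with rfl | hy
      · exact hA (le_max_left _ _) hm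
      · exact hA (le_max_right _ _) (hn y hy)
  obtain ⟨n, hn⟩ := h1
  refine le_trans ?_ (h n)
  have h2 : ∑ l ∈ s, ENNReal.ofReal (‖ft m4 (ξ + (((l : ↑(⋃ n, A n)) : ℤ) : ℝ))‖ ^ 2) =
      ∑ l ∈ s.attach.map ⟨fun x : {x // x ∈ s} => (⟨x.1.1, hn x.1 x.2⟩ : A n), by
        intro x y hxy
        exact Subtype.ext (Subtype.ext (congrArg (fun z : A n => (z : ℤ)) hxy))⟩,
      ENNReal.ofReal (‖ft m4 (ξ + ((l : ℤ) : ℝ))‖ ^ 2) := by
    rw [Finset.sum_map]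
    exact (Finset.sum_attach s (fun l : ↑(⋃ n, A n) =>
      ENNReal.ofReal (‖ft m4 (ξ + (((l : ↑(⋃ n, A n)) : ℤ) : ℝ))‖ ^ 2))).symm
  rw [h2]
  exact ENNReal.sum_le_tsum _

theorem Q_mono {A B : Set ℤ} (h : A ⊆ B) (ξ : ℝ) : Q A ξ ≤ Q B ξ :=
  ENNReal.tsum_mono_subtype (fun l : ℤ => ENNReal.ofReal (‖ft m4 (ξ + (l : ℝ))‖ ^ 2)) h

theorem Q_finset (S : Finset ℤ) (ξ : ℝ) :
    Q (S : Set ℤ) ξ = ENNReal.ofReal (∑ l ∈ S, ‖ft m4 (ξ + (l : ℝ))‖ ^ 2) := by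
  rw [Q, ENNReal.ofReal_sum_of_nonneg (fun _ _ => by positivity)]
  exact Finset.tsum_subtype' S (fun l : ℤ => ENNReal.ofReal (‖ft m4 (ξ + (l : ℝ))‖ ^ 2))

theorem good_tower (a : ℕ → ℤ) (hodd : ∀ k, Odd (a k)) (hb : ∀ k, |a k| ≤ 3)
    (hf : ∃ᶠ n in atTop, ¬ (a (n + 1) = a n ∧ |a n| = 3)) :
    Good (⋃ n, (tw n a : Set ℤ)) := by
  classical
  have hinj : Set.InjOn (fun l : ℤ => -(l : ℝ)) Set.univ := fun x _ y _ h => by simpa using h
  set Λ : ℕ → Finset ℝ := fun n => (tw n a).image (fun l : ℤ => -(l : ℝ)) with hΛ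
  have hsum : ∀ (n : ℕ) (f : ℝ → ℝ) (ξ : ℝ), ∑ l ∈ Λ n, f (ξ - l) = ∑ l ∈ tw n a, f (ξ + (l : ℝ)) := by
    intro n f ξ
    rw [hΛ, Finset.sum_image (fun x _ y _ h => hinj (Set.mem_univ x) (Set.mem_univ y) h)]
    simp
  have hmono : Monotone Λ := fun m n hmn => Finset.image_subset_image (tw_mono a hmn)
  have hs1 : ∀ n ξ, ∑ l ∈ Λ n, ‖P4 n (ξ - l)‖ ^ 2 = 1 := fun n ξ => by
    rw [hsum n (fun z => ‖P4 n z‖ ^ 2) ξ]; exact P4_sum n a hodd ξ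
  have hbes : ∀ n ξ, ∑ l ∈ Λ n, ‖ft m4 (ξ - l)‖ ^ 2 ≤ 1 := by
    intro n ξ
    rw [← hs1 n ξ]
    refine Finset.sum_le_sum fun l _ => ?_
    rw [ft4_fac n, norm_mul, mul_pow]
    have h1 := norm_ft_le m4 ((ξ - l) / 4 ^ n)
    have h2 : ‖ft m4 ((ξ - l) / 4 ^ n)‖ ^ 2 ≤ 1 := pow_le_one₀ (norm_nonneg _) h1
    have h3 : 0 ≤ ‖P4 n (ξ - l)‖ ^ 2 := by positivity
    nlinarith
  have hlow : ∀ ξ : ℝ, ∃ c > 0, ∃ᶠ n in atTop, ∀ l ∈ Λ n, c ≤ ‖ft m4 ((ξ - l) / 4 ^ n)‖ := by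
    intro ξ
    obtain ⟨z, hz, hz2⟩ := (isCompact_Icc (a := (-(15 / 16) : ℝ)) (b := 15 / 16)).exists_isMinOn
      ⟨0, by norm_num⟩ ((continuous_ft m4).norm.continuousOn)
    have hz1 : |z| < 1 := lt_of_le_of_lt (abs_le.2 hz) (by norm_num)
    refine ⟨‖ft m4 z‖, norm_pos_iff.2 (ft4_ne_zero hz1), ?_⟩
    obtain ⟨M, hM⟩ := eventually_atTop.1
      ((tendsto_div_pow4 ξ).eventually (Metric.ball_mem_nhds 0 (show (0 : ℝ) < 1 / 16 by norm_num)))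
    rw [frequently_atTop] at hf ⊢
    intro N
    obtain ⟨n, hn1, hn2⟩ := hf (max M N)
    refine ⟨n + 2, by omega, fun l hl => ?_⟩
    obtain ⟨m, hm, rfl⟩ := Finset.mem_image.1 hl
    apply hz2
    have h1 := tw_bound n a hodd hb hn2 m hm
    have h2 := hM (n + 2) (by omega)
    rw [dist_zero_right, Real.norm_eq_abs, abs_lt] at h2
    have hpos : (0 : ℝ) < 4 ^ (n + 2) := by positivity
    have h3 : (8 * (|(m : ℝ)| + 1) : ℝ) ≤ 7 * 4 ^ (n + 2) := by exact_mod_cast h1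
    have h4 : |(m : ℝ) / 4 ^ (n + 2)| ≤ 7 / 8 := by
      rw [abs_div, abs_of_pos hpos, div_le_iff₀ hpos]
      linarith
    have h5 : (ξ - -(m : ℝ)) / 4 ^ (n + 2) = ξ / 4 ^ (n + 2) + (m : ℝ) / 4 ^ (n + 2) := by ring
    rw [h5]
    obtain ⟨h6, h7⟩ := abs_le.1 h4
    constructor <;> linarith [h2.1, h2.2]
  intro ξ
  refine le_antisymm ?_ ?_
  · refine Q_iUnion_le (fun m n hmn => by exact_mod_cast tw_mono a hmn) ξ fun n => ?_
    rw [Q_finset, ENNReal.ofReal_le_one, ← hsum n (fun z => ‖ft m4 z‖ ^ 2) ξ]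
    exact hbes n ξ
  · refine le_of_forall_lt fun c hc => ?_
    obtain ⟨r, hr0, rfl⟩ : ∃ r : ℝ, 0 ≤ r ∧ c = ENNReal.ofReal r :=
      ⟨c.toReal, ENNReal.toReal_nonneg, (ENNReal.ofReal_toReal (ne_top_of_lt hc)).symm⟩
    have hr : r < 1 := by
      rw [← ENNReal.ofReal_one] at hc
      exact (ENNReal.ofReal_lt_ofReal_iff'.1 hc).1
    obtain ⟨n, hn⟩ := exhaust hmono ft4_fac hs1 hbes P4_tendsto hlow ξ (show 0 < 1 - r by linarith)
    rw [hsum n (fun z => ‖ft m4 z‖ ^ 2) ξ] at hn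
    have h1 : ENNReal.ofReal r < Q (tw n a : Set ℤ) ξ := by
      rw [Q_finset, ENNReal.ofReal_lt_ofReal_iff']
      refine ⟨by linarith, by linarith⟩
    exact lt_of_lt_of_le h1 (Q_mono (Set.subset_iUnion (fun n => (tw n a : Set ℤ)) n) ξ)

/-- Finite glueings along the path of zeros. -/
def starN : ℕ → (ℕ → Set ℤ) → Set ℤ
  | 0, _ => {0}
  | n + 1, L => glue 1 (starN n (fun k => L (k + 1))) (L 0)

/-- Infinite glueing. -/
def star (L : ℕ → Set ℤ) : Set ℤ := ⋃ n, starN n L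

theorem zero_mem_starN (n : ℕ) (L : ℕ → Set ℤ) : (0 : ℤ) ∈ starN n L := by
  induction n generalizing L with
  | zero => simp [starN]
  | succ n ih => exact Or.inl ⟨0, ih _, by simp⟩

theorem zero_mem_star (L : ℕ → Set ℤ) : (0 : ℤ) ∈ star L :=
  Set.mem_iUnion.2 ⟨0, zero_mem_starN 0 L⟩

theorem starN_succ (n : ℕ) (L : ℕ → Set ℤ) : starN n L ⊆ starN (n + 1) L := by
  induction n generalizing L with
  | zero =>
    intro l hl
    rw [starN, Set.mem_singleton_iff] at hl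
    subst hl
    exact zero_mem_starN 1 L
  | succ n ih =>
    rintro l (⟨m, hm, rfl⟩ | ⟨m, hm, rfl⟩)
    · exact Or.inl ⟨m, ih _ hm, rfl⟩
    · exact Or.inr ⟨m, hm, rfl⟩

theorem star_subset (L : ℕ → Set ℤ) : star L ⊆ glue 1 (star (fun k => L (k + 1))) (L 0) := by
  intro l hl
  obtain ⟨n, hn⟩ := Set.mem_iUnion.1 hl
  cases n with
  | zero =>
    rw [starN, Set.mem_singleton_iff] at hn
    subst hn
    exact Or.inl ⟨0, zero_mem_star _, by simp⟩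
  | succ n =>
    rcases hn with ⟨m, hm, rfl⟩ | ⟨m, hm, rfl⟩
    · exact Or.inl ⟨m, Set.mem_iUnion.2 ⟨n, hm⟩, rfl⟩
    · exact Or.inr ⟨m, hm, rfl⟩

theorem one_mem_star (L : ℕ → Set ℤ) (h : (0 : ℤ) ∈ L 0) : (1 : ℤ) ∈ star L :=
  Set.mem_iUnion.2 ⟨1, Or.inr ⟨0, h, by simp⟩⟩

theorem AA_weights (ξ : ℝ) : ENNReal.ofReal (‖AA (ξ / 2)‖ ^ 2) +
    ENNReal.ofReal (‖AA (ξ / 2 + 1 / 2)‖ ^ 2) = 1 := by
  rw [← ENNReal.ofReal_add (by positivity) (by positivity), AA_half, ENNReal.ofReal_one]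

theorem Q_starN_le (n : ℕ) (L : ℕ → Set ℤ) (hL : ∀ k, Good (L k)) (ξ : ℝ) :
    Q (starN n L) ξ ≤ 1 := by
  induction n generalizing L ξ with
  | zero =>
    have h1 : Q (starN 0 L) ξ = Q (({0} : Finset ℤ) : Set ℤ) ξ := by simp [starN]
    rw [h1, Q_finset, ENNReal.ofReal_le_one]
    simp only [Finset.sum_singleton]
    exact pow_le_one₀ (norm_nonneg _) (norm_ft_le m4 _)
  | succ n ih =>
    rw [starN, Q_glue odd_one, hL 0, mul_one, ← AA_weights ξ]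
    refine add_le_add_left ?_ _
    calc ENNReal.ofReal (‖AA (ξ / 2)‖ ^ 2) * Q (starN n (fun k => L (k + 1))) (ξ / 4)
        ≤ ENNReal.ofReal (‖AA (ξ / 2)‖ ^ 2) * 1 :=
          mul_le_mul_right (ih _ (fun k => hL (k + 1)) _) _
      _ = _ := mul_one _

theorem Q_starN_ge (n : ℕ) (L : ℕ → Set ℤ) (hL : ∀ k, Good (L k)) (ξ : ℝ) :
    ENNReal.ofReal (‖ft m4 (ξ / 4 ^ n)‖ ^ 2) ≤ Q (starN n L) ξ := by
  induction n generalizing L ξ with
  | zero =>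
    have h1 : Q (starN 0 L) ξ = Q (({0} : Finset ℤ) : Set ℤ) ξ := by simp [starN]
    rw [h1, Q_finset]
    simp
  | succ n ih =>
    rw [starN, Q_glue odd_one, hL 0]
    have h1 := ih (fun k => L (k + 1)) (fun k => hL (k + 1)) (ξ / 4)
    have h2 : ξ / 4 / 4 ^ n = ξ / 4 ^ (n + 1) := by rw [div_div, pow_succ']
    rw [h2] at h1
    set q := ENNReal.ofReal (‖ft m4 (ξ / 4 ^ (n + 1))‖ ^ 2) with hq
    have hq1 : q ≤ 1 := by
      rw [hq, ENNReal.ofReal_le_one]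
      exact pow_le_one₀ (norm_nonneg _) (norm_ft_le m4 _)
    calc q = (ENNReal.ofReal (‖AA (ξ / 2)‖ ^ 2) + ENNReal.ofReal (‖AA (ξ / 2 + 1 / 2)‖ ^ 2)) * q := by
          rw [AA_weights, one_mul]
      _ = ENNReal.ofReal (‖AA (ξ / 2)‖ ^ 2) * q + ENNReal.ofReal (‖AA (ξ / 2 + 1 / 2)‖ ^ 2) * q :=
          add_mul _ _ _
      _ ≤ _ := add_le_add (mul_le_mul_right h1 _) (mul_le_mul_right hq1 _)

theorem good_star (L : ℕ → Set ℤ) (hL : ∀ k, Good (L k)) : Good (star L) := by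
  intro ξ
  refine le_antisymm ?_ ?_
  · exact Q_iUnion_le (monotone_nat_of_le_succ fun n => starN_succ n L) ξ
      fun n => Q_starN_le n L hL ξ
  · have h1 : Tendsto (fun n : ℕ => ENNReal.ofReal (‖ft m4 (ξ / 4 ^ n)‖ ^ 2)) atTop
        (𝓝 (ENNReal.ofReal (‖(1 : ℂ)‖ ^ 2))) :=
      (ENNReal.continuous_ofReal.tendsto _).comp (((ft4_tendsto_one ξ).norm).pow 2)
    rw [norm_one, one_pow, ENNReal.ofReal_one] at h1
    refine le_of_tendsto' h1 fun n => ?_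
    exact (Q_starN_ge n L hL ξ).trans (Q_mono (Set.subset_iUnion (fun n => starN n L) n) ξ)

/-- `t Λ` misses a frequency. -/
def Inc (t : ℤ) (Λ : Set ℤ) : Prop :=
  ∃ y : ℤ, ∀ l ∈ Λ, ∃ (k : ℕ) (m : ℤ), y + t * l = 4 ^ k * (2 * m + 1)

theorem inc_star {t : ℤ} (ht : Odd t) (j : ℕ) (L : ℕ → Set ℤ) (h : Inc t (L j)) :
    Inc t (star L) := by
  induction j generalizing L with
  | zero =>
    obtain ⟨x, hx⟩ := h
    obtain ⟨i, hi⟩ := ht
    refine ⟨4 * x - t, fun l hl => ?_⟩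
    rcases star_subset L hl with ⟨m, hm, rfl⟩ | ⟨m, hm, rfl⟩
    · refine ⟨0, 2 * x - i - 1 + 2 * (t * m), ?_⟩
      simp only
      rw [hi]; ring
    · obtain ⟨k, n, hk⟩ := hx m hm
      refine ⟨k + 1, n, ?_⟩
      simp only
      linear_combination 4 * hk
  | succ j ih =>
    obtain ⟨y, hy⟩ := ih (fun k => L (k + 1)) h
    obtain ⟨i, hi⟩ := ht
    refine ⟨4 * y, fun l hl => ?_⟩
    rcases star_subset L hl with ⟨m, hm, rfl⟩ | ⟨m, hm, rfl⟩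
    · obtain ⟨k, n, hk⟩ := hy m hm
      refine ⟨k + 1, n, ?_⟩
      simp only
      linear_combination 4 * hk
    · refine ⟨0, 2 * y + i + 2 * (t * m), ?_⟩
      simp only
      rw [hi]; ring

theorem inc_tower (t : ℤ) (n : ℕ) (a x : ℕ → ℤ) (hx : ∀ k, Odd (x k))
    (hr : ∀ k, 4 * x (k + 1) = x k + t * a k) (l : ℤ) (hl : l ∈ tw n a) :
    ∃ (k : ℕ) (m : ℤ), x 0 + t * l = 4 ^ k * (2 * m + 1) := by
  induction n generalizing a x l with
  | zero =>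
    simp only [tw, Finset.mem_singleton] at hl
    subst hl
    obtain ⟨m, hm⟩ := hx 0
    exact ⟨0, m, by rw [hm]; ring⟩
  | succ n ih =>
    rw [mem_tw_succ] at hl
    rcases hl with ⟨m, hm, rfl⟩ | ⟨m, hm, rfl⟩
    · obtain ⟨j, hj⟩ := hx 0
      exact ⟨0, j + 2 * (t * m), by rw [hj]; ring⟩
    · obtain ⟨k, j, hk⟩ := ih (fun k => a (k + 1)) (fun k => x (k + 1)) (fun k => hx _)
        (fun k => hr _) m hm
      refine ⟨k + 1, j, ?_⟩
      have := hr 0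
      simp only [zero_add] at this hk
      linear_combination 4 * hk - this

/-- The digit which keeps the orbit odd. -/
def dig (t x : ℤ) : ℤ :=
  if 8 ∣ x + t - 4 then 1 else if 8 ∣ x - t - 4 then -1 else if 8 ∣ x + 3 * t - 4 then 3 else -3

theorem dig_spec {t x : ℤ} (ht : Odd t) (hx : Odd x) : 8 ∣ x + t * dig t x - 4 := by
  obtain ⟨i, rfl⟩ := ht
  obtain ⟨j, rfl⟩ := hx
  unfold dig
  split_ifs with h1 h2 h3
  · simpa using h1
  · have : 2 * j + 1 + (2 * i + 1) * -1 - 4 = 2 * j + 1 - (2 * i + 1) - 4 := by ring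
    rw [this]; exact h2
  · have : 2 * j + 1 + (2 * i + 1) * 3 - 4 = 2 * j + 1 + 3 * (2 * i + 1) - 4 := by ring
    rw [this]; exact h3
  · have hj : j % 4 = 0 ∨ j % 4 = 1 ∨ j % 4 = 2 ∨ j % 4 = 3 := by omega
    have hi : i % 4 = 0 ∨ i % 4 = 1 ∨ i % 4 = 2 ∨ i % 4 = 3 := by omega
    rcases hj with hj | hj | hj | hj <;> rcases hi with hi | hi | hi | hi <;> omega

theorem dig_odd (t x : ℤ) : Odd (dig t x) := by
  unfold dig
  split_ifs <;> decide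

theorem dig_le (t x : ℤ) : |dig t x| ≤ 3 := by
  unfold dig
  split_ifs <;> norm_num

/-- The orbit. -/
def orb (t : ℤ) : ℕ → ℤ
  | 0 => 1
  | k + 1 => (orb t k + t * dig t (orb t k)) / 4

theorem orb_odd {t : ℤ} (ht : Odd t) (k : ℕ) : Odd (orb t k) := by
  induction k with
  | zero => exact odd_one
  | succ k ih =>
    have h1 := dig_spec ht ih
    obtain ⟨c, hc⟩ := h1
    refine ⟨c, ?_⟩
    rw [orb]
    omega

theorem orb_step {t : ℤ} (ht : Odd t) (k : ℕ) :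
    4 * orb t (k + 1) = orb t k + t * dig t (orb t k) := by
  obtain ⟨c, hc⟩ := dig_spec ht (orb_odd ht k)
  rw [orb]
  omega

theorem not_dvd_orb {t : ℤ} (ht : Odd t) (ht3 : 3 ≤ t) (k : ℕ) : ¬ t ∣ orb t k := by
  induction k with
  | zero =>
    intro h
    have := Int.le_of_dvd one_pos h
    omega
  | succ k ih =>
    intro h
    apply ih
    have h1 := orb_step ht k
    have h2 : orb t k = 4 * orb t (k + 1) - t * dig t (orb t k) := by linarith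
    rw [h2]
    exact dvd_sub (dvd_mul_of_dvd_right h 4) (dvd_mul_right t _)

/-- The digits. -/
def ad (t : ℤ) (k : ℕ) : ℤ := dig t (orb t k)

theorem eq_zero_of_div {y : ℕ → ℤ} (N : ℕ) (h : ∀ n ≥ N, 4 * y (n + 1) = y n) : y N = 0 := by
  have h1 : ∀ m : ℕ, y N = 4 ^ m * y (N + m) := by
    intro m
    induction m with
    | zero => simp
    | succ m ih =>
      rw [ih, pow_succ, mul_assoc, ← h (N + m) (by omega)]
      rfl
  by_contra hne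
  have h2 := h1 (y N).natAbs
  have h3 : (4 : ℤ) ^ (y N).natAbs ∣ y N := ⟨_, h2⟩
  have h4 := Int.le_of_dvd (by positivity) ((dvd_abs _ _).2 h3)
  have h5 : |y N| = ((y N).natAbs : ℤ) := (Int.natCast_natAbs _).symm
  have h6 : (y N).natAbs < 4 ^ (y N).natAbs := Nat.lt_pow_self (by norm_num)
  have h7 : ((y N).natAbs : ℤ) < 4 ^ (y N).natAbs := by exact_mod_cast h6
  omega

theorem ad_freq {t : ℤ} (ht : Odd t) (ht3 : 3 ≤ t) :
    ∃ᶠ n in atTop, ¬ (ad t (n + 1) = ad t n ∧ |ad t n| = 3) := by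
  intro hcon
  rw [eventually_atTop] at hcon
  obtain ⟨N, hN⟩ := hcon
  simp only [not_not] at hN
  have h1 : ∀ n ≥ N, ad t n = ad t N := by
    intro n hn
    induction n, hn using Nat.le_induction with
    | base => rfl
    | succ n hn ih => rw [(hN n hn).1, ih]
  have h2 := (hN N le_rfl).2
  obtain ⟨s, hs⟩ : ∃ s : ℤ, ad t N = 3 * s := by
    rcases abs_eq (by norm_num : (0 : ℤ) ≤ 3) |>.1 h2 with h | h
    · exact ⟨1, by rw [h]; ring⟩
    · exact ⟨-1, by rw [h]; ring⟩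
  have h3 : orb t N - s * t = 0 := by
    refine eq_zero_of_div (y := fun n => orb t n - s * t) N fun n hn => ?_
    have h4 := orb_step ht n
    have h5 : dig t (orb t n) = 3 * s := by rw [← hs]; exact h1 n hn
    rw [h5] at h4
    linarith
  exact not_dvd_orb ht ht3 N ⟨s, by linarith⟩

/-- The spectrum whose multiple by `t` is not a spectrum. -/
def LL (t : ℤ) : Set ℤ := ⋃ n, (tw n (ad t) : Set ℤ)

theorem good_LL {t : ℤ} (ht : Odd t) (ht3 : 3 ≤ t) : Good (LL t) :=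
  good_tower (ad t) (fun _ => dig_odd _ _) (fun _ => dig_le _ _) (ad_freq ht ht3)

theorem inc_LL {t : ℤ} (ht : Odd t) : Inc t (LL t) := by
  refine ⟨orb t 0, fun l hl => ?_⟩
  obtain ⟨n, hn⟩ := Set.mem_iUnion.1 hl
  exact inc_tower t n (ad t) (orb t) (orb_odd ht) (fun k => orb_step ht k) l hn

/-- The final spectrum. -/
def SS : Set ℤ := star (fun j => LL (2 * j + 3))

theorem good_SS : Good SS :=
  good_star _ fun j => good_LL ⟨(j : ℤ) + 1, by ring⟩ (by omega)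

theorem inc_SS {t : ℤ} (ht : Odd t) (ht3 : 3 ≤ t) : Inc t SS := by
  obtain ⟨i, hi⟩ := ht
  obtain ⟨j, rfl⟩ : ∃ j : ℕ, t = 2 * j + 3 := ⟨(i - 1).toNat, by omega⟩
  exact inc_star ⟨(j : ℤ) + 1, by ring⟩ j _ (inc_LL ⟨(j : ℤ) + 1, by ring⟩)

theorem zero_mem_SS : (0 : ℤ) ∈ SS := zero_mem_star _

theorem one_mem_SS : (1 : ℤ) ∈ SS :=
  one_mem_star _ (Set.mem_iUnion.2 ⟨0, by simp [tw]⟩)

end Q50.SP
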