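import Mathlib

/-!
# Spectral pairs on the line
-/

set_option autoImplicit false

namespace Q50.SpectralPair

open MeasureTheory
open scoped Real

/-- `(μ, Λ)` is a spectral pair: `Λ` is countable and the functions `e_λ(x) = exp (-2 π i λ x)`,
`λ ∈ Λ`, form an orthonormal (Hilbert) basis of `L²(μ)`. -/
def IsSpectralPair (μ : Measure ℝ) (Λ : Set ℝ) : Prop :=
  Λ.Countable ∧ ∃ b : HilbertBasis Λ ℂ (Lp ℂ 2 μ), ∀ l : Λ,
    (b l : ℝ → ℂ) =ᵐ[μ] fun x => Complex.exp (-(2 * π * Complex.I * (((l : ℝ) * x : ℝ) : ℂ)))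

/-- `t` is a complete number of `(μ, Λ)`: the pair `(μ, t Λ)` is a spectral pair. -/
def IsCompleteNumber (μ : Measure ℝ) (Λ : Set ℝ) (t : ℝ) : Prop :=
  IsSpectralPair μ ((fun l => t * l) '' Λ)

end Q50.SpectralPair
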