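import Mathlib
import Pool.Agent.Q50.SP.Four2
import Pool.Agent.Q50.SP.PairDefs

/-!
# The example: a singular spectral pair with exactly two complete numbers
-/

set_option autoImplicit false

namespace Q50.SP

open MeasureTheory Filter Topology
open scoped ENNReal Real ComplexConjugate Pointwise
open Q50.SpectralPair

theorem ex_neg_mul (l x : ℝ) : ex (-l * x) =
    Complex.exp (-(2 * π * Complex.I * (((l : ℝ) * x : ℝ) : ℂ))) := by
  rw [ex]
  congr 1
  push_cast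
  ring

/-- spectral pairs and `IsSpec` -/
theorem isSpectralPair_iff (μ : Measure ℝ) [IsProbabilityMeasure μ] (Λ : Set ℝ) :
    IsSpectralPair μ Λ ↔ Λ.Countable ∧ IsSpec μ ((fun l => -l) '' Λ) := by
  constructor
  · rintro ⟨hc, b, hb⟩
    have hE : ∀ l : Λ, b l = E μ (-(l : ℝ)) := by
      intro l
      refine Lp.ext ?_
      filter_upwards [hb l, E_ae μ (-(l : ℝ))] with x h1 h2
      rw [h1, h2, ex_neg_mul]
    refine ⟨hc, ?_, ?_⟩
    · rintro _ ⟨l, hl, rfl⟩ _ ⟨k, hk, rfl⟩ hne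
      rw [← inner_E_E μ (-k) (-l)]
      have h1 : inner ℂ (b ⟨k, hk⟩) (b ⟨l, hl⟩) = 0 :=
        b.orthonormal.2 (i := ⟨k, hk⟩) (j := ⟨l, hl⟩)
          (fun h => hne (by rw [Subtype.mk.injEq] at h; rw [h]))
      rwa [hE, hE] at h1
    · intro g hg
      have h1 : ∀ l : Λ, inner ℂ (b l) g = 0 := fun l => by
        rw [hE l]; exact hg _ ⟨l, l.2, rfl⟩
      have h2 : b.repr g = 0 := by
        ext l
        rw [b.repr_apply_apply, h1 l]; rfl
      exact (LinearIsometryEquiv.map_eq_zero_iff b.repr).1 h2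
  · rintro ⟨hc, h⟩
    refine ⟨hc, ?_⟩
    have ho : Orthonormal ℂ (fun l : Λ => E μ (-(l : ℝ))) := by
      refine ⟨fun l => norm_E μ _, fun a b hab => ?_⟩
      simp only
      rw [inner_E_E]
      refine h.1 _ ⟨b, b.2, rfl⟩ _ ⟨a, a.2, rfl⟩ fun h => hab (Subtype.ext ?_)
      exact (neg_injective h).symm
    have hbot : (Submodule.span ℂ (Set.range (fun l : Λ => E μ (-(l : ℝ)))))ᗮ = ⊥ := by
      rw [Submodule.eq_bot_iff]
      intro g hg
      refine h.2 g ?_
      rintro _ ⟨l, hl, rfl⟩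
      exact (Submodule.mem_orthogonal _ _).1 hg _ (Submodule.subset_span ⟨⟨l, hl⟩, rfl⟩)
    refine ⟨HilbertBasis.mkOfOrthogonalEqBot ho hbot, fun l => ?_⟩
    rw [HilbertBasis.coe_mkOfOrthogonalEqBot]
    filter_upwards [E_ae μ (-(l : ℝ))] with x hx
    rw [hx, ex_neg_mul]

/-- the spectrum as a set of reals -/
def SR : Set ℝ := (fun l : ℤ => (l : ℝ)) '' SS

theorem SR_countable : SR.Countable := (Set.to_countable SS).image _

theorem isSpec_SR : IsSpec m4 SR := by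
  refine isSpec_of_exhaust m4 ?_ ?_
  · rintro _ ⟨a, ha, rfl⟩ _ ⟨b, hb, rfl⟩ hab
    exact good_SS.orth hb ha (fun h => hab (by rw [h]))
  · intro ξ ε hε
    obtain ⟨S, hS, hS2⟩ := good_SS.exhaust (-ξ) hε
    classical
    refine ⟨S.image (fun l : ℤ => (l : ℝ)), ?_, ?_⟩
    · rw [Finset.coe_image]; exact Set.image_mono hS
    · rw [Finset.sum_image (fun x _ y _ h => by simpa using h)]
      refine lt_of_lt_of_eq hS2 (Finset.sum_congr rfl fun l _ => ?_)
      rw [← norm_ft4_neg]; congr 3; ring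

theorem isSpec_neg_SR : IsSpec m4 ((fun l => -l) '' SR) := by
  refine isSpec_of_exhaust m4 ?_ ?_
  · rintro _ ⟨_, ⟨a, ha, rfl⟩, rfl⟩ _ ⟨_, ⟨b, hb, rfl⟩, rfl⟩ hab
    have h1 := good_SS.orth ha hb (fun h => hab (by rw [h]))
    have h2 : -(a : ℝ) - -(b : ℝ) = (b : ℝ) - a := by ring
    simp only
    rw [h2]; exact h1
  · intro ξ ε hε
    obtain ⟨S, hS, hS2⟩ := good_SS.exhaust ξ hε
    classical
    refine ⟨S.image (fun l : ℤ => -(l : ℝ)), ?_, ?_⟩
    · rw [Finset.coe_image]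
      rintro _ ⟨l, hl, rfl⟩
      exact ⟨(l : ℝ), ⟨l, hS hl, rfl⟩, rfl⟩
    · rw [Finset.sum_image (fun x _ y _ h => by simpa using h)]
      refine lt_of_lt_of_eq hS2 (Finset.sum_congr rfl fun l _ => ?_)
      congr 3; ring

theorem complete_one : IsCompleteNumber m4 SR 1 := by
  rw [IsCompleteNumber, isSpectralPair_iff]
  have : (fun l : ℝ => 1 * l) '' SR = SR := by simp
  rw [this]
  exact ⟨SR_countable, isSpec_neg_SR⟩

theorem complete_neg_one : IsCompleteNumber m4 SR (-1) := by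
  rw [IsCompleteNumber, isSpectralPair_iff]
  have h1 : (fun l : ℝ => -l) '' ((fun l : ℝ => -1 * l) '' SR) = SR := by
    rw [Set.image_image]; simp
  rw [h1]
  exact ⟨SR_countable.image _, isSpec_SR⟩

theorem eq_of_complete {t : ℝ} (h : IsCompleteNumber m4 SR t) : t = 1 ∨ t = -1 := by
  rw [IsCompleteNumber, isSpectralPair_iff] at h
  have hs := h.2
  rw [Set.image_image] at hs
  have h0 : (0 : ℝ) ∈ SR := ⟨0, zero_mem_SS, by simp⟩
  have h1 : (1 : ℝ) ∈ SR := ⟨1, one_mem_SS, by simp⟩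
  -- no frequency is orthogonal to all
  have key : ∀ y : ℝ, ¬ ∀ l ∈ SS, ft m4 (y + t * (l : ℝ)) = 0 := by
    intro y hy
    refine not_isSpec_of_frequency m4 y ?_ hs
    rintro _ ⟨_, ⟨l, hl, rfl⟩, rfl⟩
    have : y - -(t * (l : ℝ)) = y + t * (l : ℝ) := by ring
    simp only
    rw [this]; exact hy l hl
  have hodd : ∀ n : ℤ, ft m4 (1 + 4 * (n : ℝ)) = 0 := by
    intro n
    have := ft4_zero_of 0 (2 * n)
    have h2 : (4 : ℝ) ^ 0 * (2 * ((2 * n : ℤ) : ℝ) + 1) = 1 + 4 * (n : ℝ) := by push_cast; ring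
    rwa [h2] at this
  by_cases ht0 : t = 0
  · exfalso
    refine key 1 fun l _ => ?_
    have := hodd 0
    rw [ht0]
    simpa using this
  -- `t` is a zero of the transform
  have ht : ft m4 t = 0 := by
    have h2 := hs.1 (-(t * 0)) ⟨0, h0, rfl⟩ (-(t * 1)) ⟨1, h1, rfl⟩ (by intro h; apply ht0; simpa using h.symm)
    have h3 : -(t * 0) - -(t * 1) = t := by ring
    rwa [h3] at h2
  obtain ⟨k, m, hkm⟩ := exists_of_ft4_zero ht
  cases k with
  | succ k =>
    exfalso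
    refine key 1 fun l _ => ?_
    have := hodd (4 ^ k * (2 * m + 1) * l)
    rw [hkm, pow_succ]
    push_cast at this
    convert this using 2
    ring
  | zero =>
    rw [pow_zero, one_mul] at hkm
    have hk2 : t = ((2 * m + 1 : ℤ) : ℝ) := by rw [hkm]; push_cast; ring
    rcases lt_trichotomy (2 * m + 1 : ℤ) 0 with hneg | hz | hpos
    · by_cases h3 : 2 * m + 1 = -1
      · right; rw [hk2, h3]; norm_num
      · exfalso
        obtain ⟨y, hy⟩ := inc_SS (t := -(2 * m + 1)) ⟨-m - 1, by ring⟩ (by omega)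
        refine key (-y) fun l hl => ?_
        obtain ⟨k, n, hkn⟩ := hy l hl
        have h4 : (-(y : ℝ)) + t * (l : ℝ) = -((4 : ℝ) ^ k * (2 * n + 1)) := by
          have h5 : (((y + -(2 * m + 1) * l : ℤ)) : ℝ) = ((4 ^ k * (2 * n + 1) : ℤ) : ℝ) := by
            rw [hkn]
          push_cast at h5
          rw [← h5, hkm]; ring
        rw [h4]
        have h6 := norm_ft4_neg ((4 : ℝ) ^ k * (2 * n + 1))
        rw [ft4_zero_of, norm_zero] at h6
        exact norm_eq_zero.1 h6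
    · omega
    · by_cases h3 : 2 * m + 1 = 1
      · left; rw [hk2, h3]; norm_num
      · exfalso
        obtain ⟨y, hy⟩ := inc_SS (t := 2 * m + 1) ⟨m, rfl⟩ (by omega)
        refine key y fun l hl => ?_
        obtain ⟨k, n, hkn⟩ := hy l hl
        have h4 : (y : ℝ) + t * (l : ℝ) = (4 : ℝ) ^ k * (2 * n + 1) := by
          have h5 : (((y + (2 * m + 1) * l : ℤ)) : ℝ) = ((4 ^ k * (2 * n + 1) : ℤ) : ℝ) := by
            rw [hkn]
          push_cast at h5
          rw [← h5, hkm]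
        rw [h4]
        exact ft4_zero_of k n

/-! ### The measure -/

theorem XX4_mem (ω : ℕ → Fin 2) : XX d4 4 ω ∈ Set.Icc (0 : ℝ) (2 / 3) := by
  have hs := summable_term d4 (R := 4) (by norm_num) ω
  have hd : ∀ i, 0 ≤ d4 i ∧ d4 i ≤ 2 := by
    intro i; fin_cases i <;> simp [d4]
  have hg : HasSum (fun k : ℕ => 2 * ((4 : ℝ)⁻¹) ^ (k + 1)) (2 / 3) := by
    have h1 : HasSum (fun k : ℕ => ((4 : ℝ)⁻¹) ^ k) (1 - (4 : ℝ)⁻¹)⁻¹ :=
      hasSum_geometric_of_lt_one (by norm_num) (by norm_num)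
    have h2 := h1.mul_left (2 * (4 : ℝ)⁻¹)
    have h3 : 2 * (4 : ℝ)⁻¹ * (1 - (4 : ℝ)⁻¹)⁻¹ = 2 / 3 := by norm_num
    rw [h3] at h2
    refine h2.congr_fun ?_ |> fun h => h
    intro k
    rw [pow_succ]; ring
  constructor
  · exact tsum_nonneg fun k => mul_nonneg (hd _).1 (by positivity)
  · rw [← hg.tsum_eq]
    exact hs.tsum_le_tsum (fun k => mul_le_mul_of_nonneg_right (hd _).2 (by positivity)) hg.summable

/-- the support -/
def C4 : Set ℝ := Set.range (XX d4 4)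

theorem C4_compact : IsCompact C4 := isCompact_range (continuous_XX d4 (by norm_num))

theorem C4_compl : m4 C4ᶜ = 0 := by
  rw [m4, law, Measure.map_apply (measurable_XX d4 (by norm_num))
    C4_compact.isClosed.measurableSet.compl]
  have : XX d4 4 ⁻¹' C4ᶜ = ∅ := by
    ext ω; simp [C4]
  rw [this]; simp

theorem volume_C4 : volume C4 = 0 := by
  have h1 : C4 ⊆ (fun x : ℝ => (4 : ℝ)⁻¹ * (x + 0)) '' C4 ∪ (fun x : ℝ => (4 : ℝ)⁻¹ * (x + 2)) '' C4 := by
    rintro _ ⟨ω, rfl⟩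
    rw [XX_shift d4 (by norm_num) ω]
    have h2 : ω 0 = 0 ∨ ω 0 = 1 := by
      have := (ω 0).2
      rcases (show (ω 0).val = 0 ∨ (ω 0).val = 1 by omega) with h | h
      · left; exact Fin.ext h
      · right; exact Fin.ext h
    have e0 : d4 0 = 0 := by simp [d4]
    have e1 : d4 1 = 2 := by simp [d4]
    rcases h2 with h2 | h2
    · left
      exact ⟨_, ⟨fun k => ω (k + 1), rfl⟩, by rw [h2, e0]⟩
    · right
      exact ⟨_, ⟨fun k => ω (k + 1), rfl⟩, by rw [h2, e1]⟩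
  have h2 : ∀ c : ℝ, volume ((fun x : ℝ => (4 : ℝ)⁻¹ * (x + c)) '' C4) =
      ENNReal.ofReal 4⁻¹ * volume C4 := by
    intro c
    have h3 : (fun x : ℝ => (4 : ℝ)⁻¹ * (x + c)) '' C4 =
        (4 : ℝ)⁻¹ • ((fun x : ℝ => x + c) '' C4) := by
      rw [← Set.image_smul, Set.image_image]
      rfl
    rw [h3, Measure.addHaar_smul]
    simp only [Module.finrank_self, pow_one]
    rw [abs_of_pos (by norm_num : (0 : ℝ) < 4⁻¹), Set.image_add_right]
    congr 1
    exact measure_preimage_add_right volume (-c) C4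
  have h3 : volume C4 ≤ ENNReal.ofReal 4⁻¹ * volume C4 + ENNReal.ofReal 4⁻¹ * volume C4 := by
    calc volume C4 ≤ _ := measure_mono h1
      _ ≤ _ := measure_union_le _ _
      _ = _ := by rw [h2, h2]
  have hfin : volume C4 ≠ ∞ := C4_compact.measure_lt_top.ne
  obtain ⟨v, hv⟩ : ∃ v : ℝ, v = (volume C4).toReal := ⟨_, rfl⟩
  have h4 := ENNReal.toReal_mono (by finiteness) h3
  rw [← add_mul, ← ENNReal.ofReal_add (by norm_num) (by norm_num), ENNReal.toReal_mul,
    ENNReal.toReal_ofReal (by norm_num), ← hv] at h4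
  have h5 : 0 ≤ v := by rw [hv]; exact ENNReal.toReal_nonneg
  have h6 : v = 0 := by linarith
  rw [hv, ENNReal.toReal_eq_zero_iff] at h6
  exact h6.resolve_right hfin

theorem m4_singular : m4 ⟂ₘ volume := by
  refine ⟨C4ᶜ, C4_compact.isClosed.measurableSet.compl, C4_compl, ?_⟩
  rw [compl_compl]; exact volume_C4

theorem m4_Icc_compl : m4 (Set.Icc (0 : ℝ) (2 / 3))ᶜ = 0 := by
  refine measure_mono_null (Set.compl_subset_compl.2 ?_) C4_compl
  rintro _ ⟨ω, rfl⟩
  exact XX4_mem ω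

theorem m4_singleton (x : ℝ) : m4 {x} = 2⁻¹ * (m4 {4 * x} + m4 {4 * x - 2}) := by
  have h := law_selfSimilar d4 (R := 4) (by norm_num)
  have h1 : m4 {x} = ((2 : ℕ) : ℝ≥0∞)⁻¹ * ∑ i, m4 ((fun y : ℝ => (4 : ℝ)⁻¹ * (y + d4 i)) ⁻¹' {x}) := by
    have h2 : m4 {x} = (((2 : ℕ) : ℝ≥0∞)⁻¹ • ∑ i, (law d4 4).map (fun y => (4 : ℝ)⁻¹ * (y + d4 i))) {x} :=
      congrArg (fun m : Measure ℝ => m {x}) h
    rw [h2, Measure.smul_apply, Measure.finsetSum_apply, smul_eq_mul]
    congr 1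
    refine Finset.sum_congr rfl fun i _ => ?_
    rw [Measure.map_apply (by fun_prop) (measurableSet_singleton x)]
    rfl
  rw [h1, Fin.sum_univ_two]
  have e0 : d4 0 = 0 := by simp [d4]
  have e1 : d4 1 = 2 := by simp [d4]
  have h3 : (fun y : ℝ => (4 : ℝ)⁻¹ * (y + d4 0)) ⁻¹' {x} = {4 * x} := by
    ext y
    simp only [Set.mem_preimage, Set.mem_singleton_iff, e0]
    constructor <;> intro h <;> linarith
  have h4 : (fun y : ℝ => (4 : ℝ)⁻¹ * (y + d4 1)) ⁻¹' {x} = {4 * x - 2} := by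
    ext y
    simp only [Set.mem_preimage, Set.mem_singleton_iff, e1]
    constructor <;> intro h <;> linarith
  rw [h3, h4]
  norm_num

theorem m4_singleton_zero (x : ℝ) : m4 {x} = 0 := by
  set M : ℝ≥0∞ := ⨆ y : ℝ, m4 {y} with hM
  have hout : ∀ y : ℝ, y ∉ Set.Icc (0 : ℝ) (2 / 3) → m4 {y} = 0 := fun y hy =>
    measure_mono_null (by simpa using hy) m4_Icc_compl
  have h1 : ∀ y : ℝ, m4 {y} ≤ 2⁻¹ * M := by
    intro y
    rw [m4_singleton y]
    refine mul_le_mul_right ?_ _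
    by_cases h : 4 * y ∈ Set.Icc (0 : ℝ) (2 / 3)
    · rw [hout (4 * y - 2) (fun h2 => by linarith [h.2, h2.1]), add_zero]
      exact le_iSup (fun y : ℝ => m4 {y}) (4 * y)
    · rw [hout _ h, zero_add]
      exact le_iSup (fun y : ℝ => m4 {y}) (4 * y - 2)
  have h2 : M ≤ 2⁻¹ * M := iSup_le h1
  have hM1 : M ≤ 1 := iSup_le fun y => prob_le_one
  have hfin : M ≠ ∞ := ne_top_of_le_ne_top ENNReal.one_ne_top hM1
  have h3 : M = 0 := by
    by_contra hne
    have h4 : (2 : ℝ≥0∞)⁻¹ * M < 1 * M :=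
      ENNReal.mul_lt_mul_left hne hfin (by
        rw [ENNReal.inv_lt_one]; exact ENNReal.one_lt_two)
    rw [one_mul] at h4
    exact absurd h2 (not_le.2 h4)
  exact le_antisymm ((le_iSup (fun y : ℝ => m4 {y}) x).trans h3.le) bot_le


end Q50.SP
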