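import Mathlib
import Pool.Agent.Q50.SP.Tower

/-!
# The self-similar measure with ratio 1/12 and digits 0, 1, 8, 9 is spectral
-/

set_option autoImplicit false

namespace Q50.SP

open MeasureTheory Filter Topology
open scoped ENNReal Real ComplexConjugate

/-- digits -/
def dg : Fin 4 → ℝ := ![0, 1, 8, 9]

/-- the measure -/
noncomputable def m12 : Measure ℝ := law dg 12

instance m12_prob : IsProbabilityMeasure m12 := law_prob dg (by norm_num)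

theorem mask_dg (x : ℝ) : mask dg x = AA x * AA (8 * x) := by
  rw [mask, AA, AA]
  simp only [Fin.sum_univ_four, dg, Matrix.cons_val_zero, Matrix.cons_val_one,
    Matrix.cons_val_two, Matrix.cons_val_three, Matrix.head_cons, Matrix.tail_cons, mul_zero,
    ex_zero, mul_one]
  have h1 : x * 9 = x + 8 * x := by ring
  have h2 : x * 8 = 8 * x := by ring
  rw [h1, h2, ex_add]
  push_cast
  ring

/-- The second factor of the Fourier transform. -/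
noncomputable def HH (ξ : ℝ) : ℂ := AA (ξ / 12) * ft m12 (ξ / 12)

/-- The regrouped mask. -/
noncomputable def BB (x : ℝ) : ℂ := AA x * AA (2 * x / 3)

theorem ft_eq (ξ : ℝ) : ft m12 ξ = AA (2 * ξ / 3) * HH ξ := by
  rw [HH, m12, ft_step dg (by norm_num) ξ, mask_dg]
  have h1 : ξ * (12 : ℝ)⁻¹ = ξ / 12 := by ring
  have h2 : 8 * (ξ / 12) = 2 * ξ / 3 := by ring
  rw [h1, h2]
  ring

theorem HH_step (ξ : ℝ) : HH ξ = BB (ξ / 12) * HH (ξ / 12) := by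
  rw [HH, ft_eq, BB]; ring

/-- The product of the first masks. -/
noncomputable def Pn (n : ℕ) (ξ : ℝ) : ℂ := ∏ k ∈ Finset.range n, BB (ξ / 12 ^ (k + 1))

theorem HH_eq (n : ℕ) (ξ : ℝ) : HH ξ = Pn n ξ * HH (ξ / 12 ^ n) := by
  induction n with
  | zero => simp [Pn]
  | succ n ih =>
    rw [ih, Pn, Pn, Finset.prod_range_succ, HH_step (ξ / 12 ^ n), mul_assoc]
    have : ξ / 12 ^ n / 12 = ξ / 12 ^ (n + 1) := by rw [div_div, pow_succ]
    rw [this]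

theorem BB_periodic (x : ℝ) (m : ℕ) : BB (x + 9 * m) = BB x := by
  rw [BB, BB]
  have h1 : x + 9 * (m : ℝ) = x + ((9 * m : ℤ) : ℝ) := by push_cast; ring
  have h2 : 2 * (x + 9 * (m : ℝ)) / 3 = 2 * x / 3 + ((6 * m : ℤ) : ℝ) := by push_cast; ring
  rw [h2, h1, AA_add_int, AA_add_int]

theorem BB_sum (x : ℝ) : ∑ c ∈ Finset.range 4, ‖BB (x + 3 / 4 * (c : ℝ))‖ ^ 2 = 1 := by
  simp only [Finset.sum_range_succ, Finset.sum_range_zero, BB, norm_mul, mul_pow]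
  push_cast
  have e1 : x + 3 / 4 * 0 = x := by ring
  have e2 : 2 * (x + 3 / 4 * 1) / 3 = 2 * x / 3 + 1 / 2 := by ring
  have e3 : 2 * (x + 3 / 4 * 2) / 3 = 2 * x / 3 + ((1 : ℤ) : ℝ) := by push_cast; ring
  have e4 : 2 * (x + 3 / 4 * 3) / 3 = 2 * x / 3 + 1 / 2 + ((1 : ℤ) : ℝ) := by push_cast; ring
  have e5 : x + 3 / 4 * 2 = x + 1 / 2 + ((1 : ℤ) : ℝ) := by push_cast; ring
  have e6 : x + 3 / 4 * 3 = x + 1 / 4 + ((2 : ℤ) : ℝ) := by push_cast; ring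
  have e7 : x + 3 / 4 * 1 = x + 1 / 4 + 1 / 2 := by ring
  rw [e2, e3, e4, e1, e5, e6, e7, AA_add_int, AA_add_int, AA_add_int, AA_add_int]
  have h1 := AA_half x
  have h2 := AA_half (x + 1 / 4)
  have h3 := AA_half (2 * x / 3)
  nlinarith [h1, h2, h3]

/-- The integer parts of the frequencies. -/
def Gam : ℕ → Finset ℕ
  | 0 => {0}
  | n + 1 => (Gam n ×ˢ Finset.range 4).image (fun p => p.1 + 9 * 12 ^ n * p.2)

theorem Gam_lt {n l : ℕ} (h : l ∈ Gam n) : 11 * l + 27 ≤ 27 * 12 ^ n ∧ 9 ∣ l := by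
  induction n generalizing l with
  | zero => simp [Gam] at h; subst h; simp
  | succ n ih =>
    simp only [Gam, Finset.mem_image, Finset.mem_product, Finset.mem_range, Prod.exists] at h
    obtain ⟨a, c, ⟨ha, hc⟩, rfl⟩ := h
    obtain ⟨h1, h2⟩ := ih ha
    refine ⟨?_, ?_⟩
    · rw [pow_succ]
      have : 9 * 12 ^ n * c ≤ 9 * 12 ^ n * 3 := Nat.mul_le_mul_left _ (by omega)
      omega
    · exact Dvd.dvd.add h2 (Dvd.dvd.mul_right (Dvd.intro _ rfl) _)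

theorem Gam_inj (n : ℕ) : Set.InjOn (fun p : ℕ × ℕ => p.1 + 9 * 12 ^ n * p.2)
    ↑(Gam n ×ˢ Finset.range 4) := by
  rintro ⟨a, c⟩ h1 ⟨b, e⟩ h2 h
  simp only [Finset.coe_product, Set.mem_prod, Finset.mem_coe] at h1 h2 h
  have ha := (Gam_lt h1.1).1
  have hb := (Gam_lt h2.1).1
  have hpos : 0 < 12 ^ n := by positivity
  have hce : c = e := by
    rcases lt_trichotomy c e with h3 | h3 | h3
    · have : 9 * 12 ^ n * (c + 1) ≤ 9 * 12 ^ n * e := Nat.mul_le_mul_left _ h3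
      rw [mul_add, mul_one] at this
      omega
    · exact h3
    · have : 9 * 12 ^ n * (e + 1) ≤ 9 * 12 ^ n * c := Nat.mul_le_mul_left _ h3
      rw [mul_add, mul_one] at this
      omega
  subst hce
  simp at h
  simp [h]

theorem sum_Gam_succ (n : ℕ) (f : ℕ → ℝ) :
    ∑ l ∈ Gam (n + 1), f l = ∑ l ∈ Gam n, ∑ c ∈ Finset.range 4, f (l + 9 * 12 ^ n * c) := by
  rw [Gam, Finset.sum_image (Gam_inj n), Finset.sum_product]

theorem Pn_periodic (n : ℕ) (ξ : ℝ) (m : ℕ) : Pn n (ξ + 9 * 12 ^ n * m) = Pn n ξ := by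
  rw [Pn, Pn]
  refine Finset.prod_congr rfl fun k hk => ?_
  have hk' := Finset.mem_range.1 hk
  obtain ⟨j, rfl⟩ : ∃ j, n = k + 1 + j := ⟨n - (k + 1), by omega⟩
  have h1 : (ξ + 9 * 12 ^ (k + 1 + j) * (m : ℝ)) / 12 ^ (k + 1) =
      ξ / 12 ^ (k + 1) + 9 * ((12 ^ j * m : ℕ) : ℝ) := by
    rw [pow_add]
    push_cast
    field_simp
  rw [h1, BB_periodic]

theorem Pn_sum (n : ℕ) (ξ : ℝ) : ∑ l ∈ Gam n, ‖Pn n (ξ + (l : ℝ))‖ ^ 2 = 1 := by
  induction n with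
  | zero => simp [Gam, Pn]
  | succ n ih =>
    rw [sum_Gam_succ n (fun l => ‖Pn (n + 1) (ξ + (l : ℝ))‖ ^ 2), ← ih]
    refine Finset.sum_congr rfl fun l _ => ?_
    have h1 : ∀ c ∈ Finset.range 4,
        ‖Pn (n + 1) (ξ + ((l + 9 * 12 ^ n * c : ℕ) : ℝ))‖ ^ 2 =
          ‖Pn n (ξ + (l : ℝ))‖ ^ 2 * ‖BB ((ξ + l) / 12 ^ (n + 1) + 3 / 4 * (c : ℝ))‖ ^ 2 := by
      intro c _
      have h2 : ξ + ((l + 9 * 12 ^ n * c : ℕ) : ℝ) = ξ + l + 9 * 12 ^ n * (c : ℝ) := by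
        push_cast; ring
      have h3 : (ξ + l + 9 * 12 ^ n * (c : ℝ)) / 12 ^ (n + 1) =
          (ξ + l) / 12 ^ (n + 1) + 3 / 4 * (c : ℝ) := by
        rw [pow_succ]; field_simp; ring
      have h4 : Pn (n + 1) (ξ + l + 9 * 12 ^ n * (c : ℝ)) =
          Pn n (ξ + l) * BB ((ξ + l) / 12 ^ (n + 1) + 3 / 4 * (c : ℝ)) := by
        rw [← h3, ← Pn_periodic n (ξ + l) c]
        rw [Pn, Pn, Finset.prod_range_succ]
      rw [h2, h4, norm_mul, mul_pow]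
    rw [Finset.sum_congr rfl h1, ← Finset.mul_sum, BB_sum, mul_one]

/-- The frequencies of level `n`. -/
noncomputable def Lam (n : ℕ) : Finset ℝ :=
  (Finset.range 2 ×ˢ Gam n).image (fun p => -(3 / 4 * (p.1 : ℝ) + (p.2 : ℝ)))

theorem Lam_inj (n : ℕ) : Set.InjOn (fun p : ℕ × ℕ => -(3 / 4 * (p.1 : ℝ) + (p.2 : ℝ)))
    ↑(Finset.range 2 ×ˢ Gam n) := by
  rintro ⟨a, c⟩ h1 ⟨b, e⟩ h2 h
  simp only [Finset.coe_product, Set.mem_prod, Finset.mem_coe, Finset.mem_range] at h1 h2 h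
  have h3 : (3 * a + 4 * c : ℝ) = 3 * b + 4 * e := by linarith
  have h4 : 3 * a + 4 * c = 3 * b + 4 * e := by exact_mod_cast h3
  have h5 : a = b := by omega
  subst h5
  simp only [Prod.mk.injEq, true_and]
  omega

theorem Lam_mono : Monotone Lam := by
  refine monotone_nat_of_le_succ fun n => ?_
  intro x hx
  simp only [Lam, Finset.mem_image, Finset.mem_product, Prod.exists] at hx ⊢
  obtain ⟨a, c, ⟨ha, hc⟩, rfl⟩ := hx
  refine ⟨a, c, ⟨ha, ?_⟩, rfl⟩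
  rw [Gam, Finset.mem_image]
  exact ⟨(c, 0), by simp [hc], by simp⟩

/-- The level `n` factor. -/
noncomputable def Fn (n : ℕ) (ξ : ℝ) : ℂ := AA (2 * ξ / 3) * Pn n ξ

theorem BB_zero : BB 0 = 1 := by simp [BB, AA_zero]

theorem Fn_zero (n : ℕ) : Fn n 0 = 1 := by
  simp [Fn, Pn, BB_zero, AA_zero]

theorem ft_fac (n : ℕ) (ξ : ℝ) : ft m12 ξ = Fn n ξ * HH (ξ / 12 ^ n) := by
  rw [ft_eq, HH_eq n, Fn]; ring

theorem Fn_sum (n : ℕ) (ξ : ℝ) : ∑ l ∈ Lam n, ‖Fn n (ξ - l)‖ ^ 2 = 1 := by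
  rw [Lam, Finset.sum_image (Lam_inj n), Finset.sum_product]
  have h1 : ∀ a ∈ Finset.range 2, ∑ c ∈ Gam n,
      ‖Fn n (ξ - -(3 / 4 * (a : ℝ) + (c : ℝ)))‖ ^ 2 = ‖AA (2 * ξ / 3 + (a : ℝ) / 2)‖ ^ 2 := by
    intro a _
    have h2 : ∀ c ∈ Gam n, ‖Fn n (ξ - -(3 / 4 * (a : ℝ) + (c : ℝ)))‖ ^ 2 =
        ‖AA (2 * ξ / 3 + (a : ℝ) / 2)‖ ^ 2 * ‖Pn n (ξ + 3 / 4 * (a : ℝ) + (c : ℝ))‖ ^ 2 := by
      intro c hc
      obtain ⟨j, rfl⟩ := (Gam_lt hc).2
      have h3 : ξ - -(3 / 4 * (a : ℝ) + ((9 * j : ℕ) : ℝ)) =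
          ξ + 3 / 4 * (a : ℝ) + ((9 * j : ℕ) : ℝ) := by ring
      have h4 : 2 * (ξ + 3 / 4 * (a : ℝ) + ((9 * j : ℕ) : ℝ)) / 3 =
          2 * ξ / 3 + (a : ℝ) / 2 + ((6 * j : ℤ) : ℝ) := by push_cast; ring
      rw [h3, Fn, h4, AA_add_int, norm_mul, mul_pow]
    rw [Finset.sum_congr rfl h2, ← Finset.mul_sum, Pn_sum, mul_one]
  rw [Finset.sum_congr rfl h1, Finset.sum_range_succ, Finset.sum_range_one]
  have := AA_half (2 * ξ / 3)
  simpa using this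

theorem tendsto_div_pow (ξ : ℝ) : Tendsto (fun n : ℕ => ξ / 12 ^ n) atTop (𝓝 0) := by
  have h1 : Tendsto (fun n : ℕ => ξ * ((12 : ℝ)⁻¹) ^ n) atTop (𝓝 (ξ * 0)) :=
    (tendsto_pow_atTop_nhds_zero_of_lt_one (by norm_num) (by norm_num)).const_mul ξ
  rw [mul_zero] at h1
  refine h1.congr fun n => ?_
  rw [inv_pow, div_eq_mul_inv]

theorem continuous_HH : Continuous HH := by
  unfold HH
  exact (continuous_AA.comp (continuous_id.div_const _)).mul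
    ((continuous_ft m12).comp (continuous_id.div_const _))

theorem HH_zero : HH 0 = 1 := by simp [HH, AA_zero, ft_zero]

theorem Fn_tendsto (ξ : ℝ) : Tendsto (fun n => Fn n ξ) atTop (𝓝 (ft m12 ξ)) := by
  -- the products converge by `tendsto_ft`-type argument: divide by `HH (ξ / 12 ^ n) → 1`
  have h1 : Tendsto (fun n : ℕ => HH (ξ / 12 ^ n)) atTop (𝓝 1) := by
    have := (continuous_HH.tendsto 0).comp (tendsto_div_pow ξ)
    rwa [HH_zero] at this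
  have h2 : Tendsto (fun n : ℕ => ft m12 ξ / HH (ξ / 12 ^ n)) atTop (𝓝 (ft m12 ξ / 1)) :=
    tendsto_const_nhds.div h1 one_ne_zero
  rw [div_one] at h2
  refine h2.congr' ?_
  filter_upwards [h1.eventually_ne one_ne_zero] with n hn
  rw [ft_fac n, mul_div_assoc, div_self hn, mul_one]

theorem ft_ne_zero {x : ℝ} (hx : |x| ≤ 5 / 12) : ft m12 x ≠ 0 := by
  have h1 : Tendsto (fun n : ℕ => ft m12 (x / 12 ^ n)) atTop (𝓝 1) := by
    have := ((continuous_ft m12).tendsto 0).comp (tendsto_div_pow x)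
    rwa [ft_zero] at this
  obtain ⟨n, hn⟩ := (h1.eventually_ne one_ne_zero).exists
  clear h1
  induction n with
  | zero => simpa using hn
  | succ n ih =>
    apply ih
    have h2 : |x / 12 ^ n| ≤ 5 / 12 := by
      rw [abs_div, abs_of_pos (show (0 : ℝ) < 12 ^ n by positivity)]
      exact (div_le_self (abs_nonneg _) (one_le_pow₀ (by norm_num))).trans hx
    have h3 : x / 12 ^ n * (12 : ℝ)⁻¹ = x / 12 ^ (n + 1) := by
      rw [pow_succ, ← div_div, div_eq_mul_inv (x / 12 ^ n)]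
    rw [m12, ft_step dg (by norm_num), mask_dg, h3]
    rw [← h3]
    refine mul_ne_zero (mul_ne_zero (AA_ne_zero ?_) (AA_ne_zero ?_)) ?_
    · rw [abs_mul, abs_of_pos (show (0 : ℝ) < 12⁻¹ by norm_num)]; linarith
    · rw [abs_mul, abs_mul, abs_of_pos (show (0 : ℝ) < 12⁻¹ by norm_num),
        abs_of_pos (show (0 : ℝ) < 8 by norm_num)]; linarith
    · rw [h3]; exact hn

theorem HH_ne_zero {x : ℝ} (hx : |x| ≤ 5) : HH x ≠ 0 := by
  have h1 : |x / 12| ≤ 5 / 12 := by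
    rw [abs_div, abs_of_pos (show (0 : ℝ) < 12 by norm_num)]; linarith
  exact mul_ne_zero (AA_ne_zero (by linarith)) (ft_ne_zero h1)

theorem HH_low (ξ : ℝ) : ∃ c > 0, ∃ᶠ n : ℕ in atTop, ∀ l ∈ Lam n, c ≤ ‖HH ((ξ - l) / 12 ^ n)‖ := by
  obtain ⟨z, hz, hz2⟩ := (isCompact_Icc (a := (-5 : ℝ)) (b := 5)).exists_isMinOn
    ⟨0, by norm_num⟩ (continuous_HH.norm.continuousOn)
  refine ⟨‖HH z‖, norm_pos_iff.2 (HH_ne_zero (abs_le.2 hz)), Eventually.frequently ?_⟩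
  have h1 := tendsto_div_pow ξ
  filter_upwards [h1.eventually (Metric.ball_mem_nhds 0 one_pos)] with n hn
  intro l hl
  apply hz2
  simp only [Lam, Finset.mem_image, Finset.mem_product, Prod.exists, Finset.mem_range] at hl
  obtain ⟨a, c, ⟨ha, hc⟩, rfl⟩ := hl
  have h2 := (Gam_lt hc).1
  have hpos : (0 : ℝ) < 12 ^ n := by positivity
  have h3 : (11 * c + 27 : ℝ) ≤ 27 * 12 ^ n := by exact_mod_cast h2
  have h4 : (a : ℝ) ≤ 1 := by exact_mod_cast (show a ≤ 1 by omega)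
  have h5 : (1 : ℝ) ≤ 12 ^ n := one_le_pow₀ (by norm_num)
  have h0 : (0 : ℝ) ≤ a := by positivity
  have h0' : (0 : ℝ) ≤ c := by positivity
  rw [dist_zero_right, Real.norm_eq_abs, abs_lt] at hn
  have h6 : (ξ - -(3 / 4 * (a : ℝ) + (c : ℝ))) / 12 ^ n =
      ξ / 12 ^ n + (3 / 4 * (a : ℝ) + (c : ℝ)) / 12 ^ n := by ring
  rw [h6]
  have h7 : 0 ≤ (3 / 4 * (a : ℝ) + (c : ℝ)) / 12 ^ n := by positivity
  have h8 : (3 / 4 * (a : ℝ) + (c : ℝ)) / 12 ^ n ≤ 4 := by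
    rw [div_le_iff₀ hpos]; nlinarith
  constructor <;> linarith

/-- **The measure is spectral.** -/
theorem m12_isSpec : IsSpec m12 (⋃ n, (Lam n : Set ℝ)) :=
  isSpec_tower m12 Lam_mono ft_fac Fn_zero Fn_sum Fn_tendsto HH_low

end Q50.SP
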