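import Mathlib
import Pool.Agent.Q50.SP.Twelve

/-!
# The example in the language of one-dimensional vectors
-/

set_option autoImplicit false

namespace Q50.SP

open MeasureTheory Filter Topology Matrix
open scoped ENNReal Real ComplexConjugate

/-- vector with one coordinate -/
def v1 (x : ℝ) : Fin 1 → ℝ := fun _ => x

theorem measurable_v1 : Measurable v1 := by
  unfold v1; fun_prop

/-- integer digits -/
def dz : Fin 4 → ℤ := ![0, 1, 8, 9]

theorem dg_eq (i : Fin 4) : dg i = (dz i : ℝ) := by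
  fin_cases i <;> simp [dg, dz]

theorem dz_inj : Function.Injective (fun i : Fin 4 => (fun _ => dz i : Fin 1 → ℤ)) := by
  intro i j h
  have := congrFun h 0
  revert this
  revert i j
  decide

/-- The digit set. -/
def BS : Finset (Fin 1 → ℤ) := Finset.univ.map ⟨fun i : Fin 4 => (fun _ => dz i), dz_inj⟩

theorem card_BS : BS.card = 4 := by simp [BS]

theorem sum_BS {M : Type*} [AddCommMonoid M] (f : (Fin 1 → ℤ) → M) :
    ∑ b ∈ BS, f b = ∑ i : Fin 4, f (fun _ => dz i) := by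
  rw [BS, Finset.sum_map]; rfl

/-- The matrix. -/
def RS : Matrix (Fin 1) (Fin 1) ℤ := fun _ _ => 12

theorem RS_det : RS.det = 12 := by simp [RS]

theorem RS_inv : (RS.map (Int.cast : ℤ → ℝ))⁻¹ = (fun _ _ => (12 : ℝ)⁻¹) := by
  refine Matrix.inv_eq_right_inv ?_
  ext i j
  rw [Subsingleton.elim i 0, Subsingleton.elim j 0]
  refine (Matrix.mul_apply (M := RS.map (Int.cast : ℤ → ℝ))
    (N := (fun _ _ => (12 : ℝ)⁻¹ : Matrix (Fin 1) (Fin 1) ℝ))).trans ?_
  simp [RS]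

theorem RS_mulVec (v : Fin 1 → ℤ) (i : Fin 1) : (RS *ᵥ v) i = 12 * v 0 := by
  simp [RS, Matrix.mulVec, dotProduct]

theorem root_gt (z : ℂ) (h : (RS.map (Int.cast : ℤ → ℂ)).charpoly.IsRoot z) : 1 < ‖z‖ := by
  rw [Polynomial.IsRoot, Matrix.eval_charpoly, Matrix.det_fin_one] at h
  simp only [Matrix.sub_apply, Matrix.scalar_apply, Matrix.diagonal_apply_eq, Matrix.map_apply,
    RS] at h
  have h1 : z = 12 := by
    have := sub_eq_zero.1 h
    simpa using this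
  rw [h1]; norm_num

theorem simple_digits : ∀ b ∈ BS, ∀ b' ∈ BS, b ≠ b' → ¬ ∃ v : Fin 1 → ℤ, RS *ᵥ v = b - b' := by
  intro b hb b' hb' hne ⟨v, hv⟩
  simp only [BS, Finset.mem_map, Finset.mem_univ, true_and, Function.Embedding.coeFn_mk] at hb hb'
  obtain ⟨i, rfl⟩ := hb
  obtain ⟨j, rfl⟩ := hb'
  have h1 := congrFun hv 0
  rw [RS_mulVec] at h1
  simp only [Pi.sub_apply] at h1
  have h2 : dz i ≠ dz j := fun h => hne (by rw [h])
  have h3 : ∀ i j : Fin 4, dz i ≠ dz j → ¬ (12 : ℤ) ∣ dz i - dz j := by decide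
  exact h3 i j h2 ⟨v 0, by rw [h1]⟩

theorem closure_top :
    AddSubgroup.closure {v : Fin 1 → ℤ | ∃ k : ℕ, ∃ b ∈ BS, v = (RS ^ k) *ᵥ b} = ⊤ := by
  rw [eq_top_iff]
  intro v _
  have h1 : (fun _ => 1 : Fin 1 → ℤ) ∈
      AddSubgroup.closure {v : Fin 1 → ℤ | ∃ k : ℕ, ∃ b ∈ BS, v = (RS ^ k) *ᵥ b} := by
    refine AddSubgroup.subset_closure ⟨0, fun _ => dz 1, ?_, ?_⟩
    · simp only [BS, Finset.mem_map, Finset.mem_univ, true_and, Function.Embedding.coeFn_mk]
      exact ⟨1, rfl⟩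
    · rw [pow_zero, Matrix.one_mulVec]; rfl
  have h2 : v = (v 0) • (fun _ => 1 : Fin 1 → ℤ) := by
    funext i
    rw [Subsingleton.elim i 0]; simp
  rw [h2]
  exact AddSubgroup.zsmul_mem _ h1 _

/-- The measure on `ℝ¹`. -/
noncomputable def mv : Measure (Fin 1 → ℝ) := m12.map v1

instance mv_prob : IsProbabilityMeasure mv :=
  Measure.isProbabilityMeasure_map measurable_v1.aemeasurable

theorem mv_self : mv = ((BS.card : ℝ≥0∞)⁻¹) • ∑ b ∈ BS,
    mv.map (fun x => (RS.map (Int.cast : ℤ → ℝ))⁻¹ *ᵥ (x + fun i => (b i : ℝ))) := by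
  rw [sum_BS, card_BS, RS_inv]
  have hm : ∀ i : Fin 4, Measurable (fun x : ℝ => (12 : ℝ)⁻¹ * (x + dg i)) := fun i => by fun_prop
  have hm2 : ∀ i : Fin 4, Measurable (fun x : Fin 1 → ℝ =>
      ((fun _ _ => (12 : ℝ)⁻¹ : Matrix (Fin 1) (Fin 1) ℝ)) *ᵥ (x + fun _ => ((dz i : ℤ) : ℝ))) := by
    intro i
    exact (Continuous.matrix_mulVec continuous_const (continuous_id.add continuous_const)).measurable
  have h1 : ∀ i : Fin 4, mv.map (fun x =>
      ((fun _ _ => (12 : ℝ)⁻¹ : Matrix (Fin 1) (Fin 1) ℝ)) *ᵥ (x + fun _ => ((dz i : ℤ) : ℝ))) =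
      (m12.map (fun x : ℝ => (12 : ℝ)⁻¹ * (x + dg i))).map v1 := by
    intro i
    rw [mv, Measure.map_map (hm2 i) measurable_v1, Measure.map_map measurable_v1 (hm i)]
    congr 1
    funext x
    funext j
    simp [v1, Matrix.mulVec, dotProduct, dg_eq]
  simp_rw [h1]
  have h2 := law_selfSimilar dg (R := 12) (by norm_num)
  ext E hE
  have h3 : mv E = (law dg 12) (v1 ⁻¹' E) := by
    rw [mv, Measure.map_apply measurable_v1 hE]; rfl
  rw [h3, h2, Measure.smul_apply, Measure.smul_apply, Measure.finsetSum_apply,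
    Measure.finsetSum_apply]
  simp only [Measure.map_apply measurable_v1 hE]
  norm_num
  rfl

theorem integral_mv (l : ℝ) :
    ∫ x, Complex.exp (2 * π * Complex.I * ((∑ i, (v1 l i) * x i : ℝ) : ℂ)) ∂mv = ft m12 l := by
  rw [mv, integral_map measurable_v1.aemeasurable]
  · rw [ft]
    congr 1
    funext x
    simp [v1, ex]
  · refine Continuous.aestronglyMeasurable ?_
    fun_prop

theorem v1_preimage_ae {p : ℝ → Prop} (h : ∀ᵐ x ∂m12, p x) : ∀ᵐ x ∂mv, p (x 0) := by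
  have hm : Measurable (fun x : Fin 1 → ℝ => x 0) := measurable_pi_apply 0
  have : m12 = mv.map (fun x => x 0) := by
    rw [mv, Measure.map_map hm measurable_v1]
    have : (fun x : Fin 1 → ℝ => x 0) ∘ v1 = id := rfl
    rw [this, Measure.map_id]
  rw [this] at h
  exact ae_of_ae_map hm.aemeasurable h

theorem complete_mv (f : (Fin 1 → ℝ) → ℂ) (hf : MemLp f 2 mv)
    (h : ∀ l ∈ v1 '' (⋃ n, (Lam n : Set ℝ)),
      ∫ x, f x * Complex.exp (-(2 * π * Complex.I * ((∑ i, l i * x i : ℝ) : ℂ))) ∂mv = 0) :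
    f =ᵐ[mv] 0 := by
  have hf1 : MemLp (fun x => f (v1 x)) 2 m12 :=
    hf.comp_measurePreserving ⟨measurable_v1, rfl⟩
  set g : Lp ℂ 2 m12 := hf1.toLp _ with hg
  have hg0 : g = 0 := by
    refine m12_isSpec.2 g fun l hl => ?_
    rw [inner_E]
    have h1 := h (v1 l) ⟨l, hl, rfl⟩
    rw [mv, integral_map measurable_v1.aemeasurable] at h1
    · rw [← h1]
      refine integral_congr_ae ?_
      filter_upwards [hf1.coeFn_toLp] with x hx
      rw [hx, mul_comm]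
      congr 1
      rw [ex]
      congr 1
      simp [v1]
    · refine hf.1.mul (Continuous.aestronglyMeasurable ?_)
      fun_prop
  have h2 : ∀ᵐ x ∂m12, f (v1 x) = 0 := by
    have h3 : (g : ℝ → ℂ) =ᵐ[m12] 0 := by rw [hg0]; exact Lp.coeFn_zero _ _ _
    filter_upwards [hf1.coeFn_toLp, h3] with x hx hx2
    rw [← hx]; exact hx2
  have h4 := v1_preimage_ae h2
  filter_upwards [h4] with x hx
  have : v1 (x 0) = x := by funext i; rw [Subsingleton.elim i 0]; rfl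
  rw [this] at hx
  exact hx

/-- the only differences of integer frequencies which work are the odd multiples of 6 -/
theorem diff_mod (k : ℤ) (h : mask dg ((k : ℝ) / 12) = 0) : ∃ m : ℤ, k = 12 * m + 6 := by
  rw [mask_dg, mul_eq_zero] at h
  rcases h with h | h
  · have h1 := norm_AA_sq ((k : ℝ) / 12)
    rw [h, norm_zero] at h1
    have h2 : Real.cos (π * ((k : ℝ) / 12)) = 0 := by
      have : Real.cos (π * ((k : ℝ) / 12)) ^ 2 = 0 := by rw [← h1]; norm_num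
      simpa using this
    obtain ⟨m, hm⟩ := Real.cos_eq_zero_iff.1 h2
    refine ⟨m, ?_⟩
    have h3 : (k : ℝ) = 12 * m + 6 := by
      have := Real.pi_pos.ne'
      field_simp at hm
      linarith
    exact_mod_cast h3
  · exfalso
    have h1 := norm_AA_sq (8 * ((k : ℝ) / 12))
    rw [h, norm_zero] at h1
    have h2 : Real.cos (π * (8 * ((k : ℝ) / 12))) = 0 := by
      have : Real.cos (π * (8 * ((k : ℝ) / 12))) ^ 2 = 0 := by rw [← h1]; norm_num
      simpa using this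
    obtain ⟨m, hm⟩ := Real.cos_eq_zero_iff.1 h2
    have h3 : (4 * k : ℝ) = 3 * (2 * m + 1) := by
      have := Real.pi_pos.ne'
      field_simp at hm
      linarith
    have h4 : 4 * k = 3 * (2 * m + 1) := by exact_mod_cast h3
    omega

theorem sum_eq_mask (k : ℤ) :
    ∑ b ∈ BS, Complex.exp (2 * π * Complex.I *
      ((∑ i, ((RS.map (Int.cast : ℤ → ℝ))⁻¹ *ᵥ (fun j => (b j : ℝ))) i * (k : ℝ) : ℝ) : ℂ)) =
      4 * mask dg ((k : ℝ) / 12) := by
  rw [sum_BS, RS_inv, mask]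
  have h1 : ((4 : ℕ) : ℂ)⁻¹ = (4 : ℂ)⁻¹ := by norm_num
  rw [h1, ← mul_assoc, mul_inv_cancel₀ (by norm_num), one_mul]
  refine Finset.sum_congr rfl fun i _ => ?_
  rw [ex]
  congr 2
  rw [dg_eq]
  simp [Matrix.mulVec, dotProduct]
  ring

theorem no_triple : ¬ ∃ L : Finset (Fin 1 → ℤ), L.card = BS.card ∧
    ∀ l ∈ L, ∀ l' ∈ L,
      (l = l' → ∑ b ∈ BS, Complex.exp (2 * π * Complex.I *
          ((∑ i, ((RS.map (Int.cast : ℤ → ℝ))⁻¹ *ᵥ (fun j => (b j : ℝ))) i *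
            ((l i : ℝ) - (l' i : ℝ)) : ℝ) : ℂ)) = (BS.card : ℂ)) ∧
      (l ≠ l' → ∑ b ∈ BS, Complex.exp (2 * π * Complex.I *
          ((∑ i, ((RS.map (Int.cast : ℤ → ℝ))⁻¹ *ᵥ (fun j => (b j : ℝ))) i *
            ((l i : ℝ) - (l' i : ℝ)) : ℝ) : ℂ)) = 0) := by
  rintro ⟨L, hL, h⟩
  rw [card_BS] at hL
  obtain ⟨a, b, c, ha, hb, hc, hab, hac, hbc⟩ := Finset.two_lt_card_iff.1 (show 2 < L.card by omega)
  have key : ∀ l ∈ L, ∀ l' ∈ L, l ≠ l' → ∃ m : ℤ, l 0 - l' 0 = 12 * m + 6 := by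
    intro l hl l' hl' hne
    have h1 := (h l hl l' hl').2 hne
    refine diff_mod _ ?_
    have h2 := sum_eq_mask (l 0 - l' 0)
    have h3 : ∑ b ∈ BS, Complex.exp (2 * π * Complex.I *
          ((∑ i, ((RS.map (Int.cast : ℤ → ℝ))⁻¹ *ᵥ (fun j => (b j : ℝ))) i *
            ((l i : ℝ) - (l' i : ℝ)) : ℝ) : ℂ)) =
        ∑ b ∈ BS, Complex.exp (2 * π * Complex.I *
      ((∑ i, ((RS.map (Int.cast : ℤ → ℝ))⁻¹ *ᵥ (fun j => (b j : ℝ))) i *
        ((l 0 - l' 0 : ℤ) : ℝ) : ℝ) : ℂ)) := by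
      refine Finset.sum_congr rfl fun b _ => ?_
      congr 3
      refine Finset.sum_congr rfl fun i _ => ?_
      rw [Subsingleton.elim i 0]
      push_cast
      ring
    rw [h3, h2] at h1
    have h4 : (4 : ℂ) ≠ 0 := by norm_num
    exact (mul_eq_zero.1 h1).resolve_left h4
  obtain ⟨m1, h1⟩ := key a ha b hb hab
  obtain ⟨m2, h2⟩ := key b hb c hc hbc
  obtain ⟨m3, h3⟩ := key a ha c hc hac
  omega

end Q50.SP
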