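import Mathlib
import Pool.Agent.Q50.SP.Vec
import Pool.Agent.Q50.SP.Defs
import Pool.Agent.Q50.SO.Main

/-!
# The example: Hilbert basis of exponentials, attractor, no overlap, no Hadamard triple
-/

set_option autoImplicit false

namespace Q50.SP

open MeasureTheory Filter Topology Matrix
open scoped ENNReal Real ComplexConjugate

section basis
variable {d : ℕ} (μ : Measure (Fin d → ℝ)) [IsProbabilityMeasure μ]

theorem memLp_ee (l : Fin d → ℝ) : MemLp (SO.ee l) 2 μ :=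
  MemLp.of_bound (SO.continuous_ee l).aestronglyMeasurable 1
    (Eventually.of_forall fun x => (SO.norm_ee l x).le)

/-- exponential in `L²` -/
noncomputable def EV (l : Fin d → ℝ) : Lp ℂ 2 μ := (memLp_ee μ l).toLp _

theorem conj_ee (l x : Fin d → ℝ) : conj (SO.ee l x) =
    Complex.exp (-(2 * π * Complex.I * ((∑ i, l i * x i : ℝ) : ℂ))) := by
  rw [SO.ee, ← Complex.exp_conj]
  congr 1
  have h2 : (starRingEnd ℂ) 2 = 2 := map_ofNat _ _
  rw [map_mul, map_mul, map_mul, Complex.conj_I, Complex.conj_ofReal, Complex.conj_ofReal, h2]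
  ring

theorem exists_basis_of {Λ : Set (Fin d → ℝ)}
    (ho : ∀ l ∈ Λ, ∀ l' ∈ Λ, l ≠ l' →
      ∫ x, Complex.exp (2 * π * Complex.I * ((∑ i, (l i - l' i) * x i : ℝ) : ℂ)) ∂μ = 0)
    (hc : ∀ f : (Fin d → ℝ) → ℂ, MemLp f 2 μ →
      (∀ l ∈ Λ, ∫ x, f x * Complex.exp (-(2 * π * Complex.I * ((∑ i, l i * x i : ℝ) : ℂ))) ∂μ = 0) →
      f =ᵐ[μ] 0) :
    ∃ e : HilbertBasis Λ ℂ (Lp ℂ 2 μ), ∀ l : Λ,
      (e l : (Fin d → ℝ) → ℂ) =ᵐ[μ] SO.ee (l : Fin d → ℝ) := by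
  have hae : ∀ l : Fin d → ℝ, (EV μ l : (Fin d → ℝ) → ℂ) =ᵐ[μ] SO.ee l := fun l =>
    (memLp_ee μ l).coeFn_toLp
  have hon : Orthonormal ℂ (fun l : Λ => EV μ (l : Fin d → ℝ)) := by
    refine ⟨fun l => ?_, fun a b hab => ?_⟩
    · have h1 : inner ℂ (EV μ (l : Fin d → ℝ)) (EV μ (l : Fin d → ℝ)) = (1 : ℂ) := by
        rw [L2.inner_def]
        have h2 : ∀ᵐ x ∂μ, inner ℂ ((EV μ (l : Fin d → ℝ)) x) ((EV μ (l : Fin d → ℝ)) x) =
            (1 : ℂ) := by
          filter_upwards [hae l] with x hx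
          rw [hx, inner_self_eq_norm_sq_to_K, SO.norm_ee]
          simp
        rw [integral_congr_ae h2]
        simp
      rw [inner_self_eq_norm_sq_to_K] at h1
      have h2 : ‖EV μ (l : Fin d → ℝ)‖ ^ 2 = 1 := by
        have h3 : ((‖EV μ (l : Fin d → ℝ)‖ ^ 2 : ℝ) : ℂ) = ((1 : ℝ) : ℂ) := by
          push_cast
          exact h1
        exact Complex.ofReal_injective h3
      exact (pow_eq_one_iff_of_nonneg (norm_nonneg _) two_ne_zero).1 h2
    · simp only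
      rw [L2.inner_def]
      have h1 := ho b b.2 a a.2 (fun h => hab (Subtype.ext h.symm))
      rw [← h1]
      refine integral_congr_ae ?_
      filter_upwards [hae a, hae b] with x hxa hxb
      rw [hxa, hxb, RCLike.inner_apply', conj_ee, SO.ee, ← Complex.exp_add]
      congr 1
      have h2 : (∑ i, ((b : Fin d → ℝ) i - (a : Fin d → ℝ) i) * x i) =
          (∑ i, (b : Fin d → ℝ) i * x i) - ∑ i, (a : Fin d → ℝ) i * x i := by
        rw [← Finset.sum_sub_distrib]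
        exact Finset.sum_congr rfl fun i _ => by ring
      rw [h2]
      push_cast
      ring
  have hbot : (Submodule.span ℂ (Set.range (fun l : Λ => EV μ (l : Fin d → ℝ))))ᗮ = ⊥ := by
    rw [Submodule.eq_bot_iff]
    intro g hg
    refine (Lp.eq_zero_iff_ae_eq_zero).2 (hc g (Lp.memLp g) fun l hl => ?_)
    have h1 := (Submodule.mem_orthogonal _ _).1 hg _ (Submodule.subset_span ⟨⟨l, hl⟩, rfl⟩)
    rw [L2.inner_def] at h1
    rw [← h1]
    refine integral_congr_ae ?_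
    filter_upwards [hae l] with x hx
    rw [hx, RCLike.inner_apply', conj_ee, mul_comm]
  refine ⟨HilbertBasis.mkOfOrthogonalEqBot hon hbot, fun l => ?_⟩
  rw [HilbertBasis.coe_mkOfOrthogonalEqBot]
  exact hae l

end basis

/-- The attractor of the example. -/
def TT : Set (Fin 1 → ℝ) := Set.range (fun ω => v1 (XX dg 12 ω))

theorem TT_compact : IsCompact TT := by
  have hc : Continuous (fun ω => v1 (XX dg 12 ω)) := by
    unfold v1
    exact continuous_pi fun _ => continuous_XX dg (by norm_num)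
  exact isCompact_range hc

theorem TT_nonempty : TT.Nonempty := ⟨_, fun _ => 0, rfl⟩

theorem tau_v1 (i : Fin 4) (x : ℝ) :
    SelfAffine.tau RS (fun _ => dz i) (v1 x) = v1 ((12 : ℝ)⁻¹ * (x + dg i)) := by
  rw [SelfAffine.tau, RS_inv]
  funext j
  simp [v1, Matrix.mulVec, dotProduct, dg_eq]

theorem TT_att : TT = ⋃ b ∈ BS, SelfAffine.tau RS b '' TT := by
  ext x
  simp only [Set.mem_iUnion, BS, Finset.mem_map, Finset.mem_univ, true_and,
    Function.Embedding.coeFn_mk, exists_prop]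
  constructor
  · rintro ⟨ω, rfl⟩
    refine ⟨fun _ => dz (ω 0), ⟨ω 0, rfl⟩, v1 (XX dg 12 (fun k => ω (k + 1))), ⟨_, rfl⟩, ?_⟩
    rw [tau_v1]
    simp only
    rw [XX_shift dg (by norm_num) ω]
  · rintro ⟨b, ⟨i, rfl⟩, _, ⟨ω, rfl⟩, rfl⟩
    rw [tau_v1]
    refine ⟨fun k => Nat.casesOn k i ω, ?_⟩
    simp only
    rw [XX_shift dg (by norm_num)]
    rfl

theorem isSelfAffine_mv : SelfAffine.IsSelfAffine RS BS mv := ⟨inferInstance, mv_self⟩

theorem mv_orth : ∀ l ∈ v1 '' (⋃ n, (Lam n : Set ℝ)), ∀ l' ∈ v1 '' (⋃ n, (Lam n : Set ℝ)),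
    l ≠ l' → ∫ x, Complex.exp (2 * π * Complex.I * ((∑ i, (l i - l' i) * x i : ℝ) : ℂ)) ∂mv = 0 := by
  rintro _ ⟨a, ha, rfl⟩ _ ⟨b, hb, rfl⟩ h
  have h1 := integral_mv (a - b)
  have h2 : (∫ x, Complex.exp (2 * π * Complex.I *
      ((∑ i, (v1 a i - v1 b i) * x i : ℝ) : ℂ)) ∂mv) = ft m12 (a - b) := h1
  rw [h2]
  exact m12_isSpec.1 a ha b hb (fun h3 => h (by rw [h3]))

theorem mv_basis : ∃ e : HilbertBasis (v1 '' (⋃ n, (Lam n : Set ℝ))) ℂ (Lp ℂ 2 mv),
    ∀ l, (e l : (Fin 1 → ℝ) → ℂ) =ᵐ[mv] SO.ee (l : Fin 1 → ℝ) :=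
  exists_basis_of mv mv_orth complete_mv

theorem isSpectral_mv : SelfAffine.IsSpectral mv := by
  refine ⟨v1 '' (⋃ n, (Lam n : Set ℝ)), ?_, mv_basis⟩
  exact (Set.countable_iUnion fun n => (Lam n).countable_toSet).image _

theorem mv_sys : ∃ r : ℕ → ℝ, SO.Sys RS BS mv TT r := by
  obtain ⟨r, hr1, hr2, hr3⟩ := SO.exists_rate RS root_gt
  have htau : ∀ b : Fin 1 → ℤ, SO.tau RS [b] = SelfAffine.tau RS b := by
    intro b
    funext x
    rw [SO.tau_single]
    rfl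
  have hm : ∀ b : Fin 1 → ℤ, Measurable (SelfAffine.tau RS b) := by
    intro b
    rw [← htau]
    exact SO.measurable_tau [b]
  refine ⟨r, ?_⟩
  exact
    { det := SO.det_ne_zero RS root_gt
      prob := inferInstance
      self := by
        intro E hE
        have h1 : mv E = (((BS.card : ℝ≥0∞)⁻¹) • ∑ b ∈ BS, mv.map (SelfAffine.tau RS b)) E :=
          congrArg (fun m : Measure (Fin 1 → ℝ) => m E) isSelfAffine_mv.2
        rw [h1, Measure.smul_apply, Measure.finsetSum_apply, smul_eq_mul]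
        congr 1
        refine Finset.sum_congr rfl fun b _ => ?_
        rw [Measure.map_apply (hm b) hE, htau]
      cpt := TT_compact
      ne := TT_nonempty
      att := by simp_rw [htau]; exact TT_att
      r_lim := hr1
      r_nonneg := hr2
      r_le := hr3 }

theorem noOverlap_mv : SelfAffine.NoOverlap RS BS mv := by
  refine ⟨TT, ⟨TT_compact, TT_nonempty, TT_att⟩, ?_⟩
  intro b hb b' hb' hne
  obtain ⟨r, S⟩ := mv_sys
  obtain ⟨e, he⟩ := mv_basis
  have htau : ∀ b : Fin 1 → ℤ, SO.tau RS [b] = SelfAffine.tau RS b := by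
    intro b
    funext x
    rw [SO.tau_single]
    rfl
  have h := S.no_overlap (v1 '' (⋃ n, (Lam n : Set ℝ))) e he e.orthonormal e.dense_span hb hb' hne
  rwa [htau, htau] at h

theorem no_hadamard (L : Finset (Fin 1 → ℤ)) : ¬ SelfAffine.IsHadamardTriple RS BS L := by
  rintro ⟨hL, hM, -⟩
  rw [card_BS] at hL
  obtain ⟨a, b, c, ha, hb, hc, hab, hac, hbc⟩ := Finset.two_lt_card_iff.1 (show 2 < L.card by omega)
  have key : ∀ l ∈ L, ∀ l' ∈ L, l ≠ l' → ∃ m : ℤ, l 0 - l' 0 = 12 * m + 6 := by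
    intro l hl l' hl' hne
    refine diff_mod _ ?_
    have h2 := sum_eq_mask (l 0 - l' 0)
    have h1 := congrFun (congrFun hM ⟨l, hl⟩) ⟨l', hl'⟩
    rw [Matrix.mul_apply, Matrix.one_apply_ne (by simpa using hne)] at h1
    simp only [Matrix.conjTranspose_apply, SelfAffine.tripleMatrix] at h1
    rw [Finset.sum_coe_sort BS (fun b => ((Real.sqrt (BS.card : ℝ))⁻¹ : ℂ) *
      Complex.exp (2 * π * Complex.I *
        ((∑ i, ((RS.map (Int.cast : ℤ → ℝ))⁻¹ *ᵥ (fun j => (b j : ℝ))) i * ((l i : ℤ) : ℝ) : ℝ) : ℂ)) *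
      star (((Real.sqrt (BS.card : ℝ))⁻¹ : ℂ) * Complex.exp (2 * π * Complex.I *
        ((∑ i, ((RS.map (Int.cast : ℤ → ℝ))⁻¹ *ᵥ (fun j => (b j : ℝ))) i * ((l' i : ℤ) : ℝ) : ℝ) : ℂ))))]
      at h1
    have h3 : ∀ b ∈ BS, ((Real.sqrt (BS.card : ℝ))⁻¹ : ℂ) *
      Complex.exp (2 * π * Complex.I *
        ((∑ i, ((RS.map (Int.cast : ℤ → ℝ))⁻¹ *ᵥ (fun j => (b j : ℝ))) i * ((l i : ℤ) : ℝ) : ℝ) : ℂ)) *
      star (((Real.sqrt (BS.card : ℝ))⁻¹ : ℂ) * Complex.exp (2 * π * Complex.I *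
        ((∑ i, ((RS.map (Int.cast : ℤ → ℝ))⁻¹ *ᵥ (fun j => (b j : ℝ))) i * ((l' i : ℤ) : ℝ) : ℝ) : ℂ)))
        = ((Real.sqrt (BS.card : ℝ))⁻¹ : ℂ) * ((Real.sqrt (BS.card : ℝ))⁻¹ : ℂ) *
        Complex.exp (2 * π * Complex.I *
      ((∑ i, ((RS.map (Int.cast : ℤ → ℝ))⁻¹ *ᵥ (fun j => (b j : ℝ))) i *
        ((l 0 - l' 0 : ℤ) : ℝ) : ℝ) : ℂ)) := by
      intro b _
      rw [star_mul', Complex.star_def, ← Complex.exp_conj, ← Complex.ofReal_inv,
        Complex.conj_ofReal, mul_mul_mul_comm, ← Complex.exp_add]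
      congr 2
      have h4 : (starRingEnd ℂ) 2 = 2 := map_ofNat _ _
      rw [map_mul, map_mul, map_mul, Complex.conj_I, Complex.conj_ofReal, Complex.conj_ofReal, h4]
      simp only [Fin.sum_univ_one, Fin.isValue]
      push_cast
      ring
    rw [Finset.sum_congr rfl h3, ← Finset.mul_sum, h2] at h1
    have h5 : ((Real.sqrt (BS.card : ℝ))⁻¹ : ℂ) ≠ 0 := by
      rw [card_BS]
      have : Real.sqrt ((4 : ℕ) : ℝ) ≠ 0 := by positivity
      exact inv_ne_zero (by exact_mod_cast this)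
    have h6 : (4 : ℂ) ≠ 0 := by norm_num
    have h7 := (mul_eq_zero.1 h1).resolve_left (mul_ne_zero h5 h5)
    exact (mul_eq_zero.1 h7).resolve_left h6
  obtain ⟨m1, h1⟩ := key a ha b hb hab
  obtain ⟨m2, h2⟩ := key b hb c hc hbc
  obtain ⟨m3, h3⟩ := key a ha c hc hac
  omega

end Q50.SP
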